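import Pool.Agent.H378R2.Final
import Pool.Agent.H378R2.M7r

set_option autoImplicit false
set_option maxHeartbeats 1000000

/-!
# Isolated primes at the Rankin scale: the primes of a class
-/

namespace Pool.Agent.V5helper49.IS

open Finset Filter Pool.Agent.H378R2
open scoped ArithmeticFunction.vonMangoldt

/-- classes modulo the whole big modulus -/
theorem full (d : ℕ) : ∀ᶠ X : ℝ in atTop, ∃ (ps : ℕ) (S : Finset ℕ), GoodP d ps ∧ GoodS X S ∧
    ∀ b : ℕ, b.Coprime (WW X S ps) → X / (400 * ((WW X S ps).totient : ℝ)) ≤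
      ∑ n ∈ (Icc 1 ⌊3 * X⌋₊).filter (fun n => n ≡ b [MOD WW X S ps]), Phi (n / X) * Λ n := by
  obtain ⟨X0, h0⟩ := bvrel_holds 1 d
  filter_upwards [eventually_ge_atTop X0, LPhi_ge, Real.tendsto_log_atTop.eventually_ge_atTop 400,
    eventually_ge_atTop 1] with X h1 h2 h3 h4
  obtain ⟨ps, S, hps, hS, hbv⟩ := h0 X h1
  refine ⟨ps, S, hps, hS, fun b hb => ?_⟩
  have hb1 := hbv (fun q => if q = 1 then b else 1) (fun q hq => by
    by_cases h : q = 1
    · rw [if_pos h, h, mul_one]; exact hb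
    · rw [if_neg h]; exact Nat.coprime_one_left _)
  have hmem : (1 : ℕ) ∈ (Icc 1 ⌊X ^ (1 / 100 : ℝ)⌋₊).filter
      (fun q => Squarefree q ∧ q.Coprime (WW X S ps * ps)) := by
    rw [mem_filter, mem_Icc]
    refine ⟨⟨le_rfl, Nat.le_floor ?_⟩, squarefree_one, Nat.coprime_one_left _⟩
    rw [Nat.cast_one]
    exact Real.one_le_rpow h4 (by norm_num)
  have hW : (0 : ℝ) < ((WW X S ps).totient : ℝ) := by
    have : 0 < WW X S ps := by
      unfold WW
      apply prod_pos
      intro p hp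
      unfold PW at hp
      rw [mem_filter, mem_Icc] at hp
      omega
    exact_mod_cast Nat.totient_pos.2 this
  have hterm : |EPhi X (WW X S ps) b| ≤ X / (((WW X S ps).totient : ℝ) * (Real.log X) ^ 1) := by
    refine le_trans ?_ hb1
    have h5 := single_le_sum (f := fun q : ℕ => (q.divisors.card : ℝ) ^ 1 *
      |EPhi X (WW X S ps * q) (if q = 1 then b else 1)|) (fun q _ => by positivity) hmem
    simpa using h5
  rw [EPhi_eq, pow_one] at hterm
  have h5 := (abs_le.1 hterm).1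
  have hL0 : (0 : ℝ) < Real.log X := by linarith
  have h6 : X / (((WW X S ps).totient : ℝ) * Real.log X) ≤ X / (400 * ((WW X S ps).totient : ℝ)) := by
    apply div_le_div_of_nonneg_left (by linarith) (by positivity)
    rw [mul_comm]
    exact mul_le_mul_of_nonneg_left h3 hW.le
  have h7 : X / 200 * (1 / ((WW X S ps).totient : ℝ)) ≤ LPhi X * (1 / ((WW X S ps).totient : ℝ)) :=
    mul_le_mul_of_nonneg_right h2 (by positivity)
  have h8 : X / 200 * (1 / ((WW X S ps).totient : ℝ)) = X / (400 * ((WW X S ps).totient : ℝ)) +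
      X / (400 * ((WW X S ps).totient : ℝ)) := by
    field_simp
    norm_num
  linarith only [h5, h6, h7, h8]

/-- classes modulo the divisors -/
theorem divs (W Q N : ℕ) (g : ℕ → ℝ) (hg : ∀ n, 0 ≤ g n) (hW : Squarefree W) (hQ : Q ∣ W) (κ : ℝ)
    (hk : ∀ b : ℕ, b.Coprime W → κ / (W.totient : ℝ) ≤ ∑ n ∈ (Icc 1 N).filter (fun n => n ≡ b [MOD W]), g n)
    (b : ℕ) (hb : b.Coprime Q) :
    κ / (Q.totient : ℝ) ≤ ∑ n ∈ (Icc 1 N).filter (fun n => n ≡ b [MOD Q]), g n := by
  obtain ⟨M, rfl⟩ := hQ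
  have hcop : Q.Coprime M := Nat.coprime_of_squarefree_mul hW
  have hQM : 0 < Q * M := Nat.pos_of_ne_zero hW.ne_zero
  have hQ0 : 0 < Q := Nat.pos_of_mul_pos_right hQM |> fun _ => Nat.pos_of_ne_zero (fun h => by simp [h] at hQM)
  have hM0 : 0 < M := Nat.pos_of_ne_zero (fun h => by simp [h] at hQM)
  have h1 : ∑ m ∈ range M, ∑ n ∈ ((Icc 1 N).filter (fun n => n ≡ b [MOD Q])).filter (fun n => n % M = m), g n =
      ∑ n ∈ (Icc 1 N).filter (fun n => n ≡ b [MOD Q]), g n :=
    sum_fiberwise_of_maps_to (fun n _ => mem_range.2 (Nat.mod_lt _ hM0)) _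
  rw [← h1]
  have h2 : ∑ m ∈ (range M).filter (fun m => M.Coprime m), κ / ((Q * M).totient : ℝ) ≤
      ∑ m ∈ (range M).filter (fun m => M.Coprime m),
        ∑ n ∈ ((Icc 1 N).filter (fun n => n ≡ b [MOD Q])).filter (fun n => n % M = m), g n := by
    apply sum_le_sum
    intro m hm
    rw [mem_filter, mem_range] at hm
    obtain ⟨c, hc1, hc2⟩ := Nat.chineseRemainder hcop b m
    have hcc : c.Coprime (Q * M) := by
      apply Nat.Coprime.mul_right
      · have := hc1.gcd_eq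
        rw [Nat.coprime_iff_gcd_eq_one, this]
        exact hb
      · have := hc2.gcd_eq
        rw [Nat.coprime_iff_gcd_eq_one, this]
        exact hm.2.symm
    refine (hk c hcc).trans (le_of_eq ?_)
    apply sum_congr _ (fun _ _ => rfl)
    ext n
    rw [mem_filter, mem_filter, mem_filter, and_assoc]
    refine and_congr_right fun _ => ?_
    rw [← Nat.modEq_and_modEq_iff_modEq_mul hcop]
    constructor
    · rintro ⟨h3, h4⟩
      refine ⟨h3.trans hc1, ?_⟩
      have := h4.trans hc2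
      unfold Nat.ModEq at this
      rw [this, Nat.mod_eq_of_lt hm.1]
    · rintro ⟨h3, h4⟩
      refine ⟨h3.trans hc1.symm, ?_⟩
      refine Nat.ModEq.trans ?_ hc2.symm
      unfold Nat.ModEq
      rw [h4, Nat.mod_eq_of_lt hm.1]
  have h3 : ∑ m ∈ (range M).filter (fun m => M.Coprime m), κ / ((Q * M).totient : ℝ) = κ / (Q.totient : ℝ) := by
    rw [sum_const, nsmul_eq_mul, ← Nat.totient_eq_card_coprime, Nat.totient_mul hcop]
    have hφ : (M.totient : ℝ) ≠ 0 := by exact_mod_cast (Nat.totient_pos.2 hM0).ne'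
    have hφ' : (Q.totient : ℝ) ≠ 0 := by exact_mod_cast (Nat.totient_pos.2 hQ0).ne'
    push_cast
    field_simp
  rw [← h3]
  refine h2.trans ?_
  apply sum_le_sum_of_subset_of_nonneg (filter_subset _ _)
  intro m _ _
  exact sum_nonneg fun n _ => hg n

theorem WW_sqf (X : ℝ) (S : Finset ℕ) (ps : ℕ) : Squarefree (WW X S ps) := by
  unfold WW
  have hpr : ∀ p ∈ PW X S ps, p.Prime := fun p hp => by
    unfold PW at hp
    exact (mem_filter.1 hp).2.1
  apply Finset.squarefree_prod_of_pairwise_isCoprime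
  · intro p hp q hq hpq
    exact Nat.isCoprime_iff_coprime.2 ((Nat.coprime_primes (hpr p hp) (hpr q hq)).2 hpq) |> fun h => by
      simpa using (Nat.coprime_iff_isRelPrime.1 ((Nat.coprime_primes (hpr p hp) (hpr q hq)).2 hpq))
  · intro p hp
    exact (hpr p hp).squarefree

/-- **Many primes in the classes modulo the divisors of the big modulus.** -/
theorem cnt (d : ℕ) : ∀ᶠ X : ℝ in atTop, ∃ (ps : ℕ) (S : Finset ℕ), GoodP d ps ∧ GoodS X S ∧
    ∀ Q : ℕ, Q ∣ WW X S ps → (Q : ℝ) ≤ X ^ (1 / 4 : ℝ) → ∀ b : ℕ, b.Coprime Q →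
      X / (1000 * Q.totient * Real.log X) ≤
        (((Icc 1 ⌊3 * X⌋₊).filter (fun p : ℕ => p.Prime ∧ X < p ∧ p ≡ b [MOD Q])).card : ℝ) := by
  obtain ⟨C, hC⟩ := Chebyshev.psi_sub_theta_le_mul_sqrt
  have hev : ∀ᶠ X : ℝ in atTop, C * Real.sqrt (3 * X) ≤ X ^ (3 / 4 : ℝ) / 800 := by
    have h1 : Tendsto (fun X : ℝ => X ^ (1 / 4 : ℝ)) atTop atTop := tendsto_rpow_atTop (by norm_num)
    filter_upwards [h1.eventually_ge_atTop (800 * |C| * Real.sqrt 3), eventually_ge_atTop 1] with X h2 h3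
    have h4 : X ^ (3 / 4 : ℝ) = X ^ (1 / 4 : ℝ) * Real.sqrt X := by
      rw [Real.sqrt_eq_rpow, ← Real.rpow_add (by linarith)]
      norm_num
    rw [h4, Real.sqrt_mul (by norm_num)]
    have h5 : C * (Real.sqrt 3 * Real.sqrt X) ≤ |C| * (Real.sqrt 3 * Real.sqrt X) :=
      mul_le_mul_of_nonneg_right (le_abs_self C) (by positivity)
    have h6 : 800 * |C| * Real.sqrt 3 * Real.sqrt X ≤ X ^ (1 / 4 : ℝ) * Real.sqrt X :=
      mul_le_mul_of_nonneg_right h2 (Real.sqrt_nonneg _)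
    linarith
  filter_upwards [full d, hev, eventually_ge_atTop 81] with X hX h1 h2
  obtain ⟨ps, S, hps, hS, hf⟩ := hX
  refine ⟨ps, S, hps, hS, fun Q hQ hQX b hb => ?_⟩
  have hX0 : 0 < X := by linarith
  have hdiv := divs (WW X S ps) Q ⌊3 * X⌋₊ (fun n => Phi (n / X) * Λ n)
    (fun n => mul_nonneg (Phi_nonneg _) ArithmeticFunction.vonMangoldt_nonneg) (WW_sqf X S ps) hQ (X / 400)
    (fun b hb => by
      have := hf b hb
      rwa [div_div]) b hb
  have hQ0 : 0 < Q := Nat.pos_of_dvd_of_pos hQ (Nat.pos_of_ne_zero (WW_sqf X S ps).ne_zero)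
  have hφ0 : (0 : ℝ) < (Q.totient : ℝ) := by exact_mod_cast Nat.totient_pos.2 hQ0
  obtain ⟨NN, hNN⟩ : ∃ NN : ℝ, NN = (((Icc 1 ⌊3 * X⌋₊).filter (fun p : ℕ => p.Prime ∧ X < p ∧ p ≡ b [MOD Q])).card : ℝ) :=
    ⟨_, rfl⟩
  rw [← hNN]
  have hup : ∑ n ∈ (Icc 1 ⌊3 * X⌋₊).filter (fun n => n ≡ b [MOD Q]), Phi (n / X) * Λ n ≤
      1 / 2 * Real.log (3 * X) * NN + (Chebyshev.psi (3 * X) - Chebyshev.theta (3 * X)) := by
    have h3 : ∀ n ∈ (Icc 1 ⌊3 * X⌋₊).filter (fun n => n ≡ b [MOD Q]), Phi (n / X) * Λ n ≤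
        (if n.Prime ∧ X < (n : ℝ) ∧ n ≡ b [MOD Q] then 1 / 2 * Real.log (3 * X) else 0) +
          (Λ n - if n.Prime then Real.log n else 0) := by
      intro n hn
      rw [mem_filter, mem_Icc] at hn
      have hn1 : (1 : ℝ) ≤ n := by exact_mod_cast hn.1.1
      have hn3 : (n : ℝ) ≤ 3 * X := (Nat.le_floor_iff (by positivity)).1 hn.1.2
      by_cases hp : n.Prime
      · rw [if_pos hp, ArithmeticFunction.vonMangoldt_apply_prime hp, sub_self, add_zero]
        by_cases hXn : X < n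
        · rw [if_pos ⟨hp, hXn, hn.2⟩]
          exact mul_le_mul (Phi_le_half _) (Real.log_le_log (by linarith) hn3) (Real.log_nonneg hn1) (by norm_num)
        · rw [if_neg (fun h => hXn h.2.1), Phi_eq_zero_of_le (by positivity) (by
            rw [div_le_one hX0]
            exact not_lt.1 hXn), zero_mul]
      · rw [if_neg hp, if_neg (fun h => hp h.1), zero_add, sub_zero]
        have h4 : Phi (n / X) * Λ n ≤ 1 * Λ n :=
          mul_le_mul_of_nonneg_right (Phi_le_one _) ArithmeticFunction.vonMangoldt_nonneg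
        rwa [one_mul] at h4
    refine (sum_le_sum h3).trans ?_
    rw [sum_add_distrib]
    apply add_le_add
    · rw [← sum_filter, sum_const, nsmul_eq_mul, filter_filter, mul_comm, hNN]
      apply mul_le_mul_of_nonneg_left _ (mul_nonneg (by norm_num) (Real.log_nonneg (by linarith)))
      have : ((Icc 1 ⌊3 * X⌋₊).filter (fun n : ℕ => n ≡ b [MOD Q] ∧ n.Prime ∧ X < (n : ℝ) ∧ n ≡ b [MOD Q])).card ≤
        ((Icc 1 ⌊3 * X⌋₊).filter (fun p : ℕ => p.Prime ∧ X < p ∧ p ≡ b [MOD Q])).card := by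
        apply card_le_card
        intro k hk
        rw [mem_filter] at hk ⊢
        exact ⟨hk.1, hk.2.2⟩
      exact_mod_cast this
    · have h4 : Chebyshev.psi (3 * X) - Chebyshev.theta (3 * X) =
          ∑ k ∈ Icc 1 ⌊3 * X⌋₊, (Λ k - if k.Prime then Real.log k else 0) := by
        rw [sum_sub_distrib, ← sum_filter]
        unfold Chebyshev.psi Chebyshev.theta
        rfl
      rw [h4]
      apply sum_le_sum_of_subset_of_nonneg (filter_subset _ _)
      intro k _ _
      split_ifs with hp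
      · rw [ArithmeticFunction.vonMangoldt_apply_prime hp, sub_self]
      · rw [sub_zero]; exact ArithmeticFunction.vonMangoldt_nonneg
  have hψ := hC (3 * X)
  have hlog : 0 < Real.log X := Real.log_pos (by linarith)
  have hlog3 : Real.log (3 * X) ≤ 5 / 4 * Real.log X := by
    rw [Real.log_mul (by norm_num) hX0.ne']
    have h5 : Real.log 81 ≤ Real.log X := Real.log_le_log (by norm_num) h2
    rw [show (81 : ℝ) = 3 ^ 4 by norm_num, Real.log_pow] at h5
    push_cast at h5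
    linarith
  have hNN0 : 0 ≤ NN := by rw [hNN]; exact Nat.cast_nonneg _
  have hφQ : (Q.totient : ℝ) ≤ X ^ (1 / 4 : ℝ) := by
    have : (Q.totient : ℝ) ≤ Q := by exact_mod_cast Nat.totient_le Q
    linarith
  have h34 : X ^ (3 / 4 : ℝ) / 800 ≤ X / 800 / (Q.totient : ℝ) := by
    rw [le_div_iff₀ hφ0]
    have h5 : X ^ (3 / 4 : ℝ) * X ^ (1 / 4 : ℝ) = X := by
      rw [← Real.rpow_add hX0]; norm_num
    have h6 : X ^ (3 / 4 : ℝ) * (Q.totient : ℝ) ≤ X ^ (3 / 4 : ℝ) * X ^ (1 / 4 : ℝ) :=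
      mul_le_mul_of_nonneg_left hφQ (by positivity)
    linarith only [h5, h6]
  have h7 : X / 400 / (Q.totient : ℝ) = X / 800 / (Q.totient : ℝ) + X / 800 / (Q.totient : ℝ) := by
    field_simp
    norm_num
  have h8 : X / 800 / (Q.totient : ℝ) ≤ 1 / 2 * Real.log (3 * X) * NN := by
    linarith only [hdiv, hup, hψ, h1, h34, h7]
  have h9 : 1 / 2 * Real.log (3 * X) * NN ≤ 1 / 2 * (5 / 4 * Real.log X) * NN := by
    apply mul_le_mul_of_nonneg_right _ hNN0
    linarith
  rw [div_le_iff₀ (by positivity)]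
  rw [div_le_iff₀ hφ0] at h8
  have h10 : 1 / 2 * Real.log (3 * X) * NN * (Q.totient : ℝ) ≤ 1 / 2 * (5 / 4 * Real.log X) * NN * (Q.totient : ℝ) :=
    mul_le_mul_of_nonneg_right h9 hφ0.le
  have h11 : 0 ≤ NN * (Q.totient : ℝ) * Real.log X := by positivity
  linarith only [h8, h10, h11]

end Pool.Agent.V5helper49.IS
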