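import Pool.Agent.Y677.RSZ.Top
import Pool.Agent.H318R2.Cr.Prod

set_option autoImplicit false
set_option maxHeartbeats 1000000

/-!
# Isolated primes at the Rankin scale: the linear form `Q n + b`
-/

namespace Pool.Agent.V5helper49.IS

open Finset
open Pool.Agent.Y677.RSZ (Sys rt)
open Pool.Agent.TH423.SH (PS)

theorem rt_le (Q b : ℕ) (hb : b.Coprime Q) (p : ℕ) (hp : p.Prime) :
    rt (fun n : ℤ => (Q : ℤ) * n + b) p ≤ 1 := by
  unfold rt
  rw [card_le_one]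
  intro r hr s hs
  rw [mem_filter, mem_range] at hr hs
  have h1 := dvd_sub hr.2 hs.2
  rw [show (Q : ℤ) * r + b - (Q * s + b) = Q * (r - s) by ring] at h1
  have hpz : Prime (p : ℤ) := Nat.prime_iff_prime_int.1 hp
  rcases hpz.dvd_or_dvd h1 with h2 | h2
  · exfalso
    have h3 : (p : ℤ) ∣ b := by
      have h4 := dvd_sub hr.2 (Dvd.dvd.mul_right h2 (r : ℤ))
      rwa [show (Q : ℤ) * r + b - Q * r = b by ring] at h4
    have h4 : p ∣ Q := by exact_mod_cast h2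
    have h5 : p ∣ b := by exact_mod_cast h3
    have h6 := Nat.dvd_gcd h5 h4
    rw [hb] at h6
    exact hp.one_lt.ne' (Nat.dvd_one.1 h6)
  · have h3 : (r : ℤ) ≡ s [ZMOD p] := (Int.modEq_iff_dvd.2 h2).symm
    have h4 : r ≡ s [MOD p] := (Int.natCast_modEq_iff).1 h3
    exact Nat.ModEq.eq_of_lt_of_lt h4 hr.1 hs.1

theorem rt_eq (Q b : ℕ) (hb : b.Coprime Q) (p : ℕ) (hp : p.Prime) (hpQ : ¬ p ∣ Q) :
    rt (fun n : ℤ => (Q : ℤ) * n + b) p = 1 := by
  refine le_antisymm (rt_le Q b hb p hp) ?_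
  unfold rt
  rw [Nat.one_le_iff_ne_zero, Ne, card_eq_zero, ← Ne, ← nonempty_iff_ne_empty]
  haveI : Fact p.Prime := ⟨hp⟩
  have hQ0 : (Q : ZMod p) ≠ 0 := fun h => hpQ ((ZMod.natCast_eq_zero_iff _ _).1 h)
  refine ⟨(-(b : ZMod p) * (Q : ZMod p)⁻¹).val, ?_⟩
  rw [mem_filter, mem_range]
  refine ⟨ZMod.val_lt _, ?_⟩
  rw [← ZMod.intCast_zmod_eq_zero_iff_dvd] <;> try infer_instance
  push_cast
  rw [ZMod.natCast_zmod_val]
  field_simp
  ring

theorem sysQ (Q b : ℕ) (hb : b.Coprime Q) : Sys 3 (fun n : ℤ => (Q : ℤ) * n + b) where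
  per := fun p hp n => by
    show (p : ℤ) ∣ (Q : ℤ) * (n + p) + b - (Q * n + b)
    exact ⟨Q, by ring⟩
  root := fun p hp => by
    have h1 := rt_le Q b hb p hp
    have h2 := hp.two_le
    exact ⟨by omega, by omega⟩
  coll := by
    refine ⟨fun h => h, fun h hh => ⟨?_, ?_, ?_⟩⟩
    · show 1 ≤ h
      omega
    · calc h = h ^ 1 := (pow_one h).symm
        _ ≤ h ^ 3 := Nat.pow_le_pow_right (by omega) (by norm_num)
    · intro p hp n h1 h2
      have h3 : (p : ℤ) ∣ (Q : ℤ) * (n + h) + b - (Q * n + b) := dvd_sub h2 h1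
      rw [show (Q : ℤ) * (n + h) + b - (Q * n + b) = Q * h by ring] at h3
      have hpz : Prime (p : ℤ) := Nat.prime_iff_prime_int.1 hp
      rcases hpz.dvd_or_dvd h3 with h4 | h4
      · exfalso
        have h5 : (p : ℤ) ∣ b := by
          have h6 : (p : ℤ) ∣ (Q : ℤ) * n + b - Q * n := dvd_sub h1 (Dvd.dvd.mul_right h4 n)
          rwa [show (Q : ℤ) * n + b - Q * n = b by ring] at h6
        have h7 : p ∣ Q := by exact_mod_cast h4
        have h8 : p ∣ b := by exact_mod_cast h5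
        have h9 := Nat.dvd_gcd h8 h7
        rw [hb] at h9
        exact hp.one_lt.ne' (Nat.dvd_one.1 h9)
      · exact_mod_cast h4

/-- the sieve product -/
theorem V_le : ∃ C : ℝ, 0 < C ∧ ∀ Q b H : ℕ, 0 < Q → Q ≤ H → 2 ≤ H → b.Coprime Q →
    Pool.Agent.Y677.RSZ.V (fun n : ℤ => (Q : ℤ) * n + b) 1 H * (Q.totient : ℝ) * Real.log H ≤ C * Q := by
  obtain ⟨c₁, c₂, h1, h2, h3⟩ := Pool.Agent.H318R2.Cr.cz_bounds
  refine ⟨c₂, h1.trans_le h2, fun Q b H hQ hQH hH hb => ?_⟩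
  have hlog : 0 < Real.log H := Real.log_pos (by exact_mod_cast (by omega : 1 < H))
  have hQr : (0 : ℝ) < Q := by exact_mod_cast hQ
  have e1 : Pool.Agent.Y677.RSZ.V (fun n : ℤ => (Q : ℤ) * n + b) 1 H ≤
      ∏ p ∈ (PS 1 H).filter (fun p => ¬ p ∣ Q), (1 - 1 / (p : ℝ)) := by
    unfold Pool.Agent.Y677.RSZ.V
    rw [← prod_filter_mul_prod_filter_not (PS 1 H) (fun p => ¬ p ∣ Q)]
    have g0 : ∀ p ∈ PS 1 H, p.Prime := fun p hp => by
      unfold PS at hp
      exact (mem_filter.1 hp).2.1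
    have g1 : ∏ p ∈ (PS 1 H).filter (fun p => ¬ p ∣ Q), (1 - (rt (fun n : ℤ => (Q : ℤ) * n + b) p : ℝ) / p) =
        ∏ p ∈ (PS 1 H).filter (fun p => ¬ p ∣ Q), (1 - 1 / (p : ℝ)) := by
      apply prod_congr rfl
      intro p hp
      rw [mem_filter] at hp
      rw [rt_eq Q b hb p (g0 p hp.1) hp.2, Nat.cast_one]
    have g2 : ∏ p ∈ (PS 1 H).filter (fun p => ¬ ¬ p ∣ Q), (1 - (rt (fun n : ℤ => (Q : ℤ) * n + b) p : ℝ) / p) ≤ 1 := by
      apply prod_le_one
      · intro p hp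
        have hpp := g0 p (mem_filter.1 hp).1
        have h4 := rt_le Q b hb p hpp
        rw [sub_nonneg, div_le_one (by exact_mod_cast hpp.pos)]
        exact_mod_cast h4.trans hpp.one_lt.le
      · intro p hp
        have : (0 : ℝ) ≤ (rt (fun n : ℤ => (Q : ℤ) * n + b) p : ℝ) / p := by positivity
        linarith
    rw [g1]
    calc _ ≤ (∏ p ∈ (PS 1 H).filter (fun p => ¬ p ∣ Q), (1 - 1 / (p : ℝ))) * 1 := by
          apply mul_le_mul_of_nonneg_left g2
          apply prod_nonneg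
          intro p hp
          have hpp := g0 p (mem_filter.1 hp).1
          rw [sub_nonneg, div_le_one (by exact_mod_cast hpp.pos)]
          exact_mod_cast hpp.one_lt.le
      _ = _ := mul_one _
  have e2 : (∏ p ∈ (PS 1 H).filter (fun p => ¬ p ∣ Q), (1 - 1 / (p : ℝ))) * ((Q.totient : ℝ) / Q) =
      Pool.Agent.H318R2.Cr.V H := by
    have g1 : (Q.totient : ℝ) / Q = ∏ p ∈ Q.primeFactors, (1 - 1 / (p : ℝ)) := by
      rw [div_eq_iff hQr.ne']
      have := Nat.totient_eq_mul_prod_factors Q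
      have h4 : (Q.totient : ℝ) = ((Q.totient : ℚ) : ℝ) := by push_cast; rfl
      rw [h4, this]
      push_cast
      rw [mul_comm]
      congr 1
      apply prod_congr rfl
      intro p _
      rw [one_div]
    rw [g1]
    unfold Pool.Agent.H318R2.Cr.V
    rw [← prod_union]
    · apply prod_congr _ (fun _ _ => rfl)
      ext p
      unfold PS
      rw [mem_union, mem_filter, mem_filter, mem_Icc, Nat.mem_primeFactors, Pool.Agent.H318R2.Cr.mem_Pz]
      constructor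
      · rintro (h | h)
        · exact ⟨h.1.2.1, h.1.1.2⟩
        · exact ⟨h.1, (Nat.le_of_dvd hQ h.2.1).trans hQH⟩
      · rintro ⟨h4, h5⟩
        by_cases h6 : p ∣ Q
        · exact Or.inr ⟨h4, h6, hQ.ne'⟩
        · exact Or.inl ⟨⟨⟨h4.pos, h5⟩, h4, fun h => h4.one_lt.ne' (Nat.dvd_one.1 h)⟩, h6⟩
    · rw [Finset.disjoint_left]
      intro p h4 h5
      rw [mem_filter] at h4
      exact h4.2 (Nat.dvd_of_mem_primeFactors h5)
  have e3 := (h3 H hH).2
  have e4 : Pool.Agent.Y677.RSZ.V (fun n : ℤ => (Q : ℤ) * n + b) 1 H * ((Q.totient : ℝ) / Q) ≤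
      Pool.Agent.H318R2.Cr.V H := by
    rw [← e2]
    exact mul_le_mul_of_nonneg_right e1 (by positivity)
  have e5 : Pool.Agent.Y677.RSZ.V (fun n : ℤ => (Q : ℤ) * n + b) 1 H * ((Q.totient : ℝ) / Q) * Real.log H ≤ c₂ :=
    (mul_le_mul_of_nonneg_right e4 hlog.le).trans e3
  have e6 : Pool.Agent.Y677.RSZ.V (fun n : ℤ => (Q : ℤ) * n + b) 1 H * (Q.totient : ℝ) * Real.log H =
      Pool.Agent.Y677.RSZ.V (fun n : ℤ => (Q : ℤ) * n + b) 1 H * ((Q.totient : ℝ) / Q) * Real.log H * Q := by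
    field_simp
  rw [e6]
  exact mul_le_mul_of_nonneg_right e5 hQr.le

end Pool.Agent.V5helper49.IS
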