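import Pool.Agent.V5helper49.IS.Cover
import Pool.Agent.V5helper49.IS.Cnt
import Pool.Agent.V5helper49.IS.SysQ

set_option autoImplicit false
set_option maxHeartbeats 1000000

/-!
# Isolated primes at the Rankin scale: arithmetic progressions
-/

namespace Pool.Agent.V5helper49.IS

open Finset Filter Pool.Agent.H378R2

/-- the primes of the class `b` modulo `Q` in `(X, 3 X]` -/
noncomputable def cl (X : ℝ) (Q b : ℕ) : Finset ℕ :=
  (Icc 1 ⌊3 * X⌋₊).filter (fun p : ℕ => p.Prime ∧ X < p ∧ p ≡ b [MOD Q])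

/-- Szemerédi's theorem in one class -/
theorem ap (k : ℕ) (κ : ℝ) (hk : 2 ≤ k) (hκ : 0 < κ) : ∃ B : ℕ, ∀ᶠ X : ℝ in atTop, ∀ Q b : ℕ, 0 < Q →
    (Q : ℝ) ≤ X ^ (1 / 4 : ℝ) → b < Q → b.Coprime Q →
    X / (1000 * Q.totient * Real.log X) ≤ (cl X Q b).card → ∀ A ⊆ cl X Q b,
    κ * (cl X Q b).card ≤ A.card →
    ∃ p D : ℕ, 0 < D ∧ (D : ℝ) ≤ Q * Real.log (3 * X) ^ B ∧ ∀ i < k, p + i * D ∈ A := by
  classical
  obtain ⟨C, hC, hV⟩ := V_le
  obtain ⟨B, H₀, hE⟩ := Pool.Agent.Y677.RSZ.eng_all k 3 (1 / 2) (κ / (4000 * C)) hk (by norm_num) (by positivity)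
  refine ⟨B, ?_⟩
  have t34 : Tendsto (fun X : ℝ => X ^ (3 / 4 : ℝ)) atTop atTop := tendsto_rpow_atTop (by norm_num)
  filter_upwards [t34.eventually_ge_atTop ((H₀ : ℝ) + 2), eventually_ge_atTop 100] with X hX1 hX2
  intro Q b hQ hQX hbQ hb hcl A hA hAc
  have hX0 : 0 < X := by linarith only [hX2]
  have hQr : (0 : ℝ) < Q := by exact_mod_cast hQ
  have hQ1 : (1 : ℝ) ≤ Q := by exact_mod_cast hQ
  have hφ : (0 : ℝ) < (Q.totient : ℝ) := by exact_mod_cast Nat.totient_pos.2 hQ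
  have hlX : 0 < Real.log X := Real.log_pos (by linarith only [hX2])
  obtain ⟨H, hH⟩ : ∃ H : ℕ, H = ⌊3 * X⌋₊ / Q := ⟨_, rfl⟩
  obtain ⟨Y, hY⟩ : ∃ Y : ℕ, Y = ⌊X⌋₊ / Q - 1 := ⟨_, rfl⟩
  have hf3 : ((⌊3 * X⌋₊ : ℕ) : ℝ) ≤ 3 * X := Nat.floor_le (by linarith only [hX0])
  have hf1 : ((⌊X⌋₊ : ℕ) : ℝ) ≤ X := Nat.floor_le hX0.le
  have hf3' : 3 * X < ((⌊3 * X⌋₊ : ℕ) : ℝ) + 1 := Nat.lt_floor_add_one _
  have hf1' : X < ((⌊X⌋₊ : ℕ) : ℝ) + 1 := Nat.lt_floor_add_one _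
  have hprod : X ^ (3 / 4 : ℝ) * X ^ (1 / 4 : ℝ) = X := by
    rw [← Real.rpow_add hX0]; norm_num
  have h34 : 0 < X ^ (3 / 4 : ℝ) := Real.rpow_pos_of_pos hX0 _
  have hQH0 : (Q : ℝ) * X ^ (3 / 4 : ℝ) ≤ X := by
    calc (Q : ℝ) * X ^ (3 / 4 : ℝ) ≤ X ^ (1 / 4 : ℝ) * X ^ (3 / 4 : ℝ) :=
          mul_le_mul_of_nonneg_right hQX h34.le
      _ = X := by rw [mul_comm, hprod]
  have hH1 : (Q : ℝ) * H ≤ 3 * X := by
    have h1 : Q * H ≤ ⌊3 * X⌋₊ := by rw [hH]; exact Nat.mul_div_le _ _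
    have h2 : ((Q * H : ℕ) : ℝ) ≤ ((⌊3 * X⌋₊ : ℕ) : ℝ) := by exact_mod_cast h1
    push_cast at h2
    linarith only [h2, hf3]
  have hH2 : X ^ (3 / 4 : ℝ) ≤ H := by
    have h1 : ⌊3 * X⌋₊ < Q * (H + 1) := by rw [hH]; exact Nat.lt_mul_div_succ _ hQ
    have h2 : ((⌊3 * X⌋₊ : ℕ) : ℝ) < ((Q * (H + 1) : ℕ) : ℝ) := by exact_mod_cast h1
    push_cast at h2
    by_contra hcon
    push Not at hcon
    have h3 : (Q : ℝ) * ((H : ℝ) + 1) ≤ Q * (X ^ (3 / 4 : ℝ) + 1) :=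
      mul_le_mul_of_nonneg_left (by linarith only [hcon]) hQr.le
    have h4 : (Q : ℝ) * (X ^ (3 / 4 : ℝ) + 1) ≤ Q * (X ^ (3 / 4 : ℝ) + X ^ (3 / 4 : ℝ)) :=
      mul_le_mul_of_nonneg_left (by
        have : (0 : ℝ) ≤ H₀ := Nat.cast_nonneg _
        linarith only [hX1, this]) hQr.le
    linarith only [h2, h3, h4, hQH0, hf3', hX2]
  have hHH0 : H₀ ≤ H := by
    have : (H₀ : ℝ) ≤ H := by linarith only [hX1, hH2]
    exact_mod_cast this
  have hHpos : (0 : ℝ) < H := by linarith only [h34, hH2]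
  have hH2' : 2 ≤ H := by
    have h0 : (0 : ℝ) ≤ H₀ := Nat.cast_nonneg _
    have : (2 : ℝ) ≤ H := by linarith only [hX1, hH2, h0]
    exact_mod_cast this
  have hlogH : 3 / 4 * Real.log X ≤ Real.log H := by
    have h1 := Real.log_le_log h34 hH2
    rwa [Real.log_rpow hX0] at h1
  have hlogH0 : 0 < Real.log H := by linarith only [hlX, hlogH]
  have hX14 : X ^ (1 / 4 : ℝ) ≤ X := by
    have := Real.rpow_le_rpow_of_exponent_le (by linarith only [hX2] : (1 : ℝ) ≤ X) (by norm_num : (1 / 4 : ℝ) ≤ 1)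
    rwa [Real.rpow_one] at this
  have hX14' : X ^ (1 / 4 : ℝ) ≤ X ^ (3 / 4 : ℝ) :=
    Real.rpow_le_rpow_of_exponent_le (by linarith only [hX2]) (by norm_num)
  have hQH : Q ≤ H := by
    have : (Q : ℝ) ≤ H := by linarith only [hQX, hX14', hH2]
    exact_mod_cast this
  have hQX1 : Q ≤ ⌊X⌋₊ := Nat.le_floor (by linarith only [hQX, hX14])
  have hXQ : 1 ≤ ⌊X⌋₊ / Q := (Nat.one_le_div_iff hQ).2 hQX1
  -- elements of `A`
  have hAm : ∀ p ∈ A, p.Prime ∧ X < p ∧ p ≤ ⌊3 * X⌋₊ ∧ p % Q = b := by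
    intro p hp
    have h1 := hA hp
    unfold cl at h1
    rw [mem_filter, mem_Icc] at h1
    refine ⟨h1.2.1, h1.2.2.1, h1.1.2, ?_⟩
    have h2 := h1.2.2.2
    unfold Nat.ModEq at h2
    rw [h2, Nat.mod_eq_of_lt hbQ]
  have hrec : ∀ p ∈ A, Q * (p / Q) + b = p := by
    intro p hp
    have h1 := (hAm p hp).2.2.2
    have h2 := Nat.div_add_mod p Q
    omega
  have hinj : Set.InjOn (fun p : ℕ => p / Q) A := by
    intro p hp q hq hpq
    have h1 := hrec p hp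
    have h2 := hrec q hq
    have h3 : p / Q = q / Q := hpq
    rw [← h1, ← h2, h3]
  have hsub : A.image (fun p => p / Q) ⊆ Ioc Y (Y + H) := by
    intro n hn
    rw [mem_image] at hn
    obtain ⟨p, hp, rfl⟩ := hn
    obtain ⟨g1, g2, g3, g4⟩ := hAm p hp
    rw [mem_Ioc]
    have h1 : p / Q ≤ H := by rw [hH]; exact Nat.div_le_div_right g3
    have h2 : ⌊X⌋₊ ≤ p := by
      have : ((⌊X⌋₊ : ℕ) : ℝ) ≤ p := by linarith only [hf1, g2]
      exact_mod_cast this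
    have h3 : ⌊X⌋₊ / Q ≤ p / Q := Nat.div_le_div_right h2
    omega
  obtain ⟨a₁, d₁, hd1, hd2, hap⟩ := hE (fun n : ℤ => (Q : ℤ) * n + b) Y H (A.image (fun p => p / Q)) (sysQ Q b hb)
    hHH0 (by
      intro n hn
      rw [mem_Ioc] at hn
      have hn1 : 1 ≤ n := by omega
      have h0 : 0 < Q * n := Nat.mul_pos hQ hn1
      have h1 : Q * n + b ≤ H ^ 3 := by
        have e1 : Q * Y ≤ ⌊X⌋₊ := by
          calc Q * Y ≤ Q * (⌊X⌋₊ / Q) := Nat.mul_le_mul_left _ (by omega)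
            _ ≤ ⌊X⌋₊ := Nat.mul_div_le _ _
        have e2 : Q * H ≤ ⌊3 * X⌋₊ := by rw [hH]; exact Nat.mul_div_le _ _
        have e3 : Q * n + b ≤ ⌊X⌋₊ + ⌊3 * X⌋₊ + Q := by
          have : Q * n ≤ Q * (Y + H) := Nat.mul_le_mul_left _ hn.2
          rw [mul_add] at this
          omega
        have e4 : ((Q * n + b : ℕ) : ℝ) ≤ 5 * X := by
          have : ((Q * n + b : ℕ) : ℝ) ≤ ((⌊X⌋₊ + ⌊3 * X⌋₊ + Q : ℕ) : ℝ) := by exact_mod_cast e3
          push_cast at this ⊢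
          linarith only [this, hf1, hf3, hQX, hX14]
        have e5 : 5 * X ≤ (H : ℝ) ^ 3 := by
          have g1 : (X ^ (3 / 4 : ℝ)) ^ 3 ≤ (H : ℝ) ^ 3 := pow_le_pow_left₀ h34.le hH2 3
          have g2 : (X ^ (3 / 4 : ℝ)) ^ 3 = X ^ (9 / 4 : ℝ) := by
            rw [← Real.rpow_natCast, ← Real.rpow_mul hX0.le]; norm_num
          have g3 : X ^ (2 : ℝ) ≤ X ^ (9 / 4 : ℝ) :=
            Real.rpow_le_rpow_of_exponent_le (by linarith only [hX2]) (by norm_num)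
          rw [Real.rpow_two] at g3
          have g4 : 5 * X ≤ X ^ 2 := by nlinarith only [hX2]
          linarith only [g1, g2, g3, g4]
        have e6 : ((Q * n + b : ℕ) : ℝ) ≤ ((H ^ 3 : ℕ) : ℝ) := by
          push_cast at e4 ⊢
          linarith only [e4, e5]
        exact_mod_cast e6
      have h2 : (Q : ℤ) * (n : ℤ) + b = ((Q * n + b : ℕ) : ℤ) := by push_cast; ring
      show (Q : ℤ) * (n : ℤ) + b ≠ 0 ∧ |(Q : ℤ) * (n : ℤ) + b| ≤ (H : ℤ) ^ 3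
      rw [h2]
      refine ⟨by exact_mod_cast (by omega : Q * n + b ≠ 0), ?_⟩
      rw [abs_of_nonneg (by positivity)]
      exact_mod_cast h1) hsub (by
      intro n hn p' hp' hpH hdiv
      rw [mem_image] at hn
      obtain ⟨p, hp, rfl⟩ := hn
      obtain ⟨g1, g2, g3, g4⟩ := hAm p hp
      have h1 : (p' : ℤ) ∣ ((Q * (p / Q) + b : ℕ) : ℤ) := by
        push_cast at hdiv ⊢
        exact hdiv
      rw [hrec p hp] at h1
      have h2 : p' ∣ p := by exact_mod_cast h1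
      have h3 : p' = p := (Nat.prime_dvd_prime_iff_eq hp' g1).1 h2
      rw [h3] at hpH
      have h4 : (H : ℝ) ^ (1 / 2 : ℝ) ≤ X := by
        have h5 : (H : ℝ) ≤ X ^ 2 := by
          have h6 : (H : ℝ) ≤ Q * H := by
            have : 1 * (H : ℝ) ≤ Q * H := mul_le_mul_of_nonneg_right hQ1 hHpos.le
            linarith only [this]
          have h7 : 3 * X ≤ X ^ 2 := by nlinarith only [hX2]
          linarith only [h6, h7, hH1]
        rw [← Real.sqrt_eq_rpow]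
        rw [Real.sqrt_le_left hX0.le]
        exact h5
      linarith only [h4, hpH, g2]) (by
      rw [card_image_of_injOn hinj]
      have h1 := hV Q b H hQ hQH hH2' hb
      obtain ⟨v, hv⟩ : ∃ v : ℝ, v = Pool.Agent.Y677.RSZ.V (fun n : ℤ => (Q : ℤ) * n + b) 1 H := ⟨_, rfl⟩
      rw [← hv] at h1 ⊢
      -- `v φ log H ≤ C Q`
      have h2 : (H : ℝ) * v ≤ 4 * C * X / (Q.totient * Real.log X) := by
        rw [le_div_iff₀ (by positivity)]
        by_cases hv0 : v ≤ 0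
        · have : (H : ℝ) * v * (Q.totient * Real.log X) ≤ 0 := by
            have h3 : (H : ℝ) * v ≤ 0 := mul_nonpos_of_nonneg_of_nonpos hHpos.le hv0
            exact mul_nonpos_of_nonpos_of_nonneg h3 (by positivity)
          have h4 : 0 ≤ 4 * C * X := by positivity
          linarith only [this, h4]
        · push Not at hv0
          have h3 : v * Q.totient * (3 / 4 * Real.log X) ≤ C * Q := by
            have : v * Q.totient * (3 / 4 * Real.log X) ≤ v * Q.totient * Real.log H :=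
              mul_le_mul_of_nonneg_left hlogH (by positivity)
            linarith only [this, h1]
          have h4 : (H : ℝ) * (v * Q.totient * (3 / 4 * Real.log X)) ≤ H * (C * Q) :=
            mul_le_mul_of_nonneg_left h3 hHpos.le
          have h5 : C * ((Q : ℝ) * H) ≤ C * (3 * X) := mul_le_mul_of_nonneg_left hH1 hC.le
          linarith only [h4, h5]
      have h3 : κ / (4000 * C) * ((H : ℝ) * v) ≤ κ / (4000 * C) * (4 * C * X / (Q.totient * Real.log X)) :=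
        mul_le_mul_of_nonneg_left h2 (by positivity)
      have h4 : κ / (4000 * C) * (4 * C * X / (Q.totient * Real.log X)) =
          κ * (X / (1000 * Q.totient * Real.log X)) := by
        field_simp
        norm_num
      have h5 : κ * (X / (1000 * Q.totient * Real.log X)) ≤ κ * (cl X Q b).card :=
        mul_le_mul_of_nonneg_left hcl hκ.le
      linarith only [h3, h4, h5, hAc])
  refine ⟨Q * a₁ + b, Q * d₁, Nat.mul_pos hQ hd1, ?_, ?_⟩
  · push_cast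
    apply mul_le_mul_of_nonneg_left _ hQr.le
    refine hd2.trans ?_
    apply pow_le_pow_left₀ hlogH0.le
    apply Real.log_le_log hHpos
    have : 1 * (H : ℝ) ≤ Q * H := mul_le_mul_of_nonneg_right hQ1 hHpos.le
    linarith only [this, hH1]
  · intro i hi
    have h1 := hap i hi
    rw [mem_image] at h1
    obtain ⟨p, hp, hpe⟩ := h1
    have h2 := hrec p hp
    rw [hpe] at h2
    have h3 : Q * a₁ + b + i * (Q * d₁) = p := by rw [← h2]; ring
    rw [h3]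
    exact hp

/-- nearly all elements of a subset of the class are first terms of progressions -/
theorem ap' (k : ℕ) (κ : ℝ) (hκ : 0 < κ) : ∃ B : ℕ, ∀ᶠ X : ℝ in atTop, ∀ Q b : ℕ, 0 < Q →
    (Q : ℝ) ≤ X ^ (1 / 4 : ℝ) → b < Q → b.Coprime Q →
    X / (1000 * Q.totient * Real.log X) ≤ (cl X Q b).card → ∀ A ⊆ cl X Q b,
    (({p | p ∈ A ∧ ¬ ∃ D : ℕ, 0 < D ∧ (D : ℝ) ≤ Q * Real.log (3 * X) ^ B ∧
      ∀ i < k, p + i * D ∈ A} : Set ℕ).ncard : ℝ) ≤ κ * (cl X Q b).card := by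
  classical
  obtain ⟨B, hB⟩ := ap (k + 2) κ (by omega) hκ
  refine ⟨B, ?_⟩
  filter_upwards [hB] with X hX Q b hQ hQX hbQ hb hcl A hA
  obtain ⟨A', hA'⟩ : ∃ A' : Finset ℕ, A' = A.filter (fun p => ¬ ∃ D : ℕ, 0 < D ∧
    (D : ℝ) ≤ Q * Real.log (3 * X) ^ B ∧ ∀ i < k, p + i * D ∈ A) := ⟨_, rfl⟩
  have hset : ({p | p ∈ A ∧ ¬ ∃ D : ℕ, 0 < D ∧ (D : ℝ) ≤ Q * Real.log (3 * X) ^ B ∧
      ∀ i < k, p + i * D ∈ A} : Set ℕ) = (A' : Set ℕ) := by
    ext p
    rw [hA']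
    simp only [Set.mem_ofPred_eq, coe_filter]
  rw [hset, Set.ncard_coe_finset]
  by_contra hcon
  push Not at hcon
  have hA'A : A' ⊆ A := by rw [hA']; exact filter_subset _ _
  obtain ⟨p, D, h1, h2, h3⟩ := hX Q b hQ hQX hbQ hb hcl A' (hA'A.trans hA) hcon.le
  have h4 := h3 0 (by omega)
  rw [zero_mul, add_zero, hA', mem_filter] at h4
  exact h4.2 ⟨D, h1, h2, fun i hi => hA'A (h3 i (by omega))⟩

/-- **Progressions of isolated primes.** -/
theorem main (ε : ℝ) (hε : 0 < ε) (d : ℕ) (hd : Squarefree d) : ∃ c : ℝ, 0 < c ∧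
    ∀ (k : ℕ) (κ : ℝ), 0 < κ → ∀ᶠ X : ℝ in atTop, ∀ a : ℕ, a.Coprime d → ∃ Q b : ℕ, 0 < Q ∧
      (Q : ℝ) ≤ X ^ ε ∧ b.Coprime Q ∧ X ^ (1 - ε) ≤ (cl X Q b).card ∧
      (∀ p ∈ cl X Q b, p ≡ a [MOD d] ∧ ∀ q : ℕ, q.Prime → q ≠ p → c * rk X < |(q : ℝ) - p|) ∧
      ∀ A ⊆ cl X Q b, (({p | p ∈ A ∧ ¬ ∃ D : ℕ, 0 < D ∧ (D : ℝ) ≤ X ^ ε ∧
        ∀ i < k, p + i * D ∈ A} : Set ℕ).ncard : ℝ) ≤ κ * (cl X Q b).card := by
  obtain ⟨ε', hε'⟩ : ∃ ε' : ℝ, ε' = min (ε / 2) (1 / 4) := ⟨_, rfl⟩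
  have he0 : 0 < ε' := by rw [hε']; exact lt_min (by positivity) (by norm_num)
  have he1 : ε' ≤ ε / 2 := by rw [hε']; exact min_le_left _ _
  have he2 : ε' ≤ 1 / 4 := by rw [hε']; exact min_le_right _ _
  obtain ⟨c, hc, hcov⟩ := cover ε' he0 (by linarith only [he2]) d hd
  refine ⟨c, hc, fun k κ hκ => ?_⟩
  obtain ⟨B, hB⟩ := ap' k κ hκ
  -- growth
  have g1 : ∀ᶠ X : ℝ in atTop, (2 * Real.log X) ^ B ≤ X ^ (ε / 2) := by
    have h1 : ∀ᶠ x : ℝ in atTop, ‖Real.log x ^ (B : ℝ)‖ ≤ (1 / 2 ^ B : ℝ) * ‖x ^ (ε / 2)‖ :=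
      (isLittleO_log_rpow_rpow_atTop (B : ℝ) (by positivity : 0 < ε / 2)).def (by positivity)
    filter_upwards [h1, eventually_ge_atTop 1] with X h2 h3
    have hl : 0 ≤ Real.log X := Real.log_nonneg h3
    rw [Real.norm_of_nonneg (Real.rpow_nonneg hl _), Real.norm_of_nonneg (Real.rpow_nonneg (by linarith) _),
      Real.rpow_natCast] at h2
    rw [mul_pow]
    have h4 := mul_le_mul_of_nonneg_left h2 (by positivity : (0 : ℝ) ≤ 2 ^ B)
    rw [← mul_assoc, mul_one_div_cancel (by positivity), one_mul] at h4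
    exact h4
  have g2 : ∀ᶠ X : ℝ in atTop, 1000 * Real.log X ≤ X ^ (ε / 2) := by
    have h1 : ∀ᶠ x : ℝ in atTop, ‖Real.log x‖ ≤ (1 / 1000 : ℝ) * ‖x ^ (ε / 2)‖ :=
      (isLittleO_log_rpow_atTop (by positivity : 0 < ε / 2)).def (by norm_num)
    filter_upwards [h1, eventually_ge_atTop 1] with X h2 h3
    rw [Real.norm_of_nonneg (Real.log_nonneg h3), Real.norm_of_nonneg (Real.rpow_nonneg (by linarith) _)] at h2
    linarith only [h2]
  have g3 : ∀ᶠ X : ℝ in atTop, c * (Real.log X) ^ 2 ≤ X / 4 := by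
    have h1 : ∀ᶠ x : ℝ in atTop, ‖Real.log x ^ 2‖ ≤ (1 / (4 * c) : ℝ) * ‖x‖ :=
      (Real.isLittleO_pow_log_id_atTop (n := 2)).def (by positivity)
    filter_upwards [h1, eventually_ge_atTop 1] with X h2 h3
    rw [Real.norm_of_nonneg (by positivity), Real.norm_of_nonneg (by linarith only [h3])] at h2
    have h4 := mul_le_mul_of_nonneg_left h2 hc.le
    rw [show c * (1 / (4 * c) * X) = X / 4 by field_simp] at h4
    exact h4
  filter_upwards [hB, hcov, cnt d, g1, g2, g3, evX 1 1 1 one_pos, eventually_ge_atTop 16] with X hX1 hX2 hX3 e1 e2 e3 e4 hX16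
  intro a ha
  obtain ⟨ps, S, hps, hS, hcnt⟩ := hX3
  obtain ⟨Q, b, hQW, hQX, hbQ, hdQ, hba, hz⟩ := hX2 ps S hps hS a ha
  have hX0 : 0 < X := by linarith only [hX16]
  have hX1' : 1 ≤ X := by linarith only [hX16]
  have hQ0 : 0 < Q := Nat.pos_of_dvd_of_pos hQW (Nat.pos_of_ne_zero (WW_sqf X S ps).ne_zero)
  have hQ4 : (Q : ℝ) ≤ X ^ (1 / 4 : ℝ) := hQX.trans (Real.rpow_le_rpow_of_exponent_le hX1' he2)
  have hQε : (Q : ℝ) ≤ X ^ (ε / 2) := hQX.trans (Real.rpow_le_rpow_of_exponent_le hX1' he1)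
  have hX14 : X ^ (1 / 4 : ℝ) ≤ X / 2 := by
    have h1 : X ^ (1 / 4 : ℝ) ≤ X ^ (1 / 2 : ℝ) := Real.rpow_le_rpow_of_exponent_le hX1' (by norm_num)
    rw [← Real.sqrt_eq_rpow] at h1
    have h2 : Real.sqrt X ≤ X / 2 := by
      rw [Real.sqrt_le_left (by linarith only [hX0])]
      nlinarith only [hX16]
    linarith only [h1, h2]
  have hbb : b % Q < Q := Nat.mod_lt _ hQ0
  have hbQ' : (b % Q).Coprime Q := by
    rw [Nat.coprime_iff_gcd_eq_one, ← Nat.gcd_rec, Nat.gcd_comm]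
    exact hbQ
  have hbmod : b % Q ≡ b [MOD Q] := Nat.mod_modEq b Q
  have hcl := hcnt Q hQW hQ4 (b % Q) hbQ'
  have hrk0 : rk X ≤ (Real.log X) ^ 2 := by
    unfold rk
    obtain ⟨T, hT⟩ : ∃ T : ℝ, T = Real.log X := ⟨_, rfl⟩
    obtain ⟨A, hA⟩ : ∃ A : ℝ, A = Real.log T := ⟨_, rfl⟩
    obtain ⟨B', hB'⟩ : ∃ B' : ℝ, B' = Real.log A := ⟨_, rfl⟩
    obtain ⟨D, hD⟩ : ∃ D : ℝ, D = Real.log B' := ⟨_, rfl⟩
    rw [← hT, ← hA, ← hB', ← hD] at e4 ⊢
    obtain ⟨a1, a2, a3, a4, a5, a6, a7⟩ := e4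
    rw [div_le_iff₀ (by positivity)]
    have hAT : A ≤ T := by nlinarith only [a2, a7]
    have hDB : D ≤ B' ^ 2 := by nlinarith only [a3, a4, a5]
    calc T * A * D ≤ T * T * B' ^ 2 := by
          apply mul_le_mul _ hDB (by linarith only [a4]) (by positivity)
          exact mul_le_mul_of_nonneg_left hAT (by linarith only [a1])
      _ = T ^ 2 * B' ^ 2 := by ring
  have hcrk : c * rk X ≤ X / 4 := (mul_le_mul_of_nonneg_left hrk0 hc.le).trans e3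
  refine ⟨Q, b % Q, hQ0, ?_, hbQ', ?_, ?_, ?_⟩
  · exact hQX.trans (Real.rpow_le_rpow_of_exponent_le hX1' (by linarith only [he1, hε]))
  · refine le_trans ?_ hcl
    have hφ : (0 : ℝ) < (Q.totient : ℝ) := by exact_mod_cast Nat.totient_pos.2 hQ0
    have hlog : 0 < Real.log X := Real.log_pos (by linarith only [hX16])
    rw [le_div_iff₀ (by positivity)]
    have h1 : (Q.totient : ℝ) ≤ X ^ (ε / 2) := by
      have : (Q.totient : ℝ) ≤ Q := by exact_mod_cast Nat.totient_le Q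
      linarith only [this, hQε]
    have h2 : 1000 * (Q.totient : ℝ) * Real.log X ≤ X ^ (ε / 2) * X ^ (ε / 2) := by
      calc 1000 * (Q.totient : ℝ) * Real.log X = (Q.totient : ℝ) * (1000 * Real.log X) := by ring
        _ ≤ _ := mul_le_mul h1 e2 (by positivity) (by positivity)
    calc X ^ (1 - ε) * (1000 * (Q.totient : ℝ) * Real.log X) ≤ X ^ (1 - ε) * (X ^ (ε / 2) * X ^ (ε / 2)) :=
          mul_le_mul_of_nonneg_left h2 (by positivity)
      _ = X := by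
          rw [← Real.rpow_add hX0, ← Real.rpow_add hX0]
          norm_num
  · intro p hp
    unfold cl at hp
    rw [mem_filter, mem_Icc] at hp
    obtain ⟨_, hpp, hXp, hpb⟩ := hp
    have hpb' : p ≡ b [MOD Q] := hpb.trans hbmod
    refine ⟨(hpb'.of_dvd hdQ).trans hba, fun q hq hqp => ?_⟩
    by_contra hcon
    push Not at hcon
    obtain ⟨p', h1, h2, h3⟩ := hz ((q : ℤ) - p) (by
      intro h
      apply hqp
      have : (q : ℤ) = p := by linarith only [h]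
      exact_mod_cast this) (by push_cast; exact hcon)
    have h4 : (p' : ℤ) ∣ (p : ℤ) - b := by
      have h5 := (Nat.modEq_iff_dvd.1 hpb'.symm)
      exact (Int.natCast_dvd_natCast.2 h2).trans h5
    have h5 : (p' : ℤ) ∣ q := by
      have h6 := dvd_add h3 h4
      rwa [show (b : ℤ) + (q - p) + (p - b) = q by ring] at h6
    have h6 : p' ∣ q := by exact_mod_cast h5
    have h7 : p' = q := (Nat.prime_dvd_prime_iff_eq h1 hq).1 h6
    have h8 : q ≤ Q := h7 ▸ Nat.le_of_dvd hQ0 h2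
    have h9 : (q : ℝ) ≤ X / 2 := by
      have : (q : ℝ) ≤ Q := by exact_mod_cast h8
      linarith only [this, hQ4, hX14]
    have h10 := abs_le.1 (hcon.trans hcrk)
    linarith only [h9, h10.1, hXp, hX0]
  · intro A hA
    have h1 := hX1 Q (b % Q) hQ0 hQ4 hbb hbQ' hcl A hA
    refine le_trans ?_ h1
    have hlog3 : Real.log (3 * X) ^ B ≤ X ^ (ε / 2) := by
      refine le_trans ?_ e1
      apply pow_le_pow_left₀ (Real.log_nonneg (by linarith only [hX16]))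
      rw [Real.log_mul (by norm_num) hX0.ne']
      have : Real.log 3 ≤ Real.log X := Real.log_le_log (by norm_num) (by linarith only [hX16])
      linarith only [this]
    have hQD : (Q : ℝ) * Real.log (3 * X) ^ B ≤ X ^ ε := by
      calc (Q : ℝ) * Real.log (3 * X) ^ B ≤ X ^ (ε / 2) * X ^ (ε / 2) :=
            mul_le_mul hQε hlog3 (pow_nonneg (Real.log_nonneg (by linarith only [hX16])) _) (by positivity)
        _ = X ^ ε := by rw [← Real.rpow_add hX0]; norm_num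
    have hfin : ({p | p ∈ A ∧ ¬ ∃ D : ℕ, 0 < D ∧ (D : ℝ) ≤ Q * Real.log (3 * X) ^ B ∧
        ∀ i < k, p + i * D ∈ A} : Set ℕ).Finite :=
      A.finite_toSet.subset (fun p hp => hp.1)
    have hsub := Set.ncard_le_ncard (s := ({p | p ∈ A ∧ ¬ ∃ D : ℕ, 0 < D ∧ (D : ℝ) ≤ X ^ ε ∧
        ∀ i < k, p + i * D ∈ A} : Set ℕ)) (t := ({p | p ∈ A ∧ ¬ ∃ D : ℕ, 0 < D ∧
        (D : ℝ) ≤ Q * Real.log (3 * X) ^ B ∧ ∀ i < k, p + i * D ∈ A} : Set ℕ))
      (fun p hp => ⟨hp.1, fun ⟨D, h2, h3, h4⟩ => hp.2 ⟨D, h2, h3.trans hQD, h4⟩⟩) hfin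
    exact_mod_cast hsub

end Pool.Agent.V5helper49.IS
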