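import Pool.Agent.V5helper49.IS.Par

set_option autoImplicit false
set_option maxHeartbeats 1000000

/-!
# Isolated primes at the Rankin scale: the covering
-/

namespace Pool.Agent.V5helper49.IS

open Finset Filter Pool.Agent.H378R2 Pool.Agent.TH101.RG

theorem sum_union_le'' {s t : Finset ℕ} (f : ℕ → ℝ) (hf : ∀ i, 0 ≤ f i) :
    ∑ i ∈ s ∪ t, f i ≤ ∑ i ∈ s, f i + ∑ i ∈ t, f i := by
  rw [← sum_union_inter]
  have : 0 ≤ ∑ i ∈ s ∩ t, f i := sum_nonneg fun i _ => hf i
  linarith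

theorem modEq_of_primes' {d r h : ℕ} (hd : Squarefree d) (hp : ∀ p ∈ d.primeFactors, r ≡ h [MOD p]) :
    r ≡ h [MOD d] := by
  rw [Nat.modEq_iff_dvd]
  rw [← Nat.prod_primeFactors_of_squarefree hd]
  push_cast
  apply Finset.prod_dvd_of_coprime
  · intro p hp1 q hq hpq
    have h1 := (Nat.coprime_primes (Nat.prime_of_mem_primeFactors hp1)
      (Nat.prime_of_mem_primeFactors hq)).2 hpq
    exact Nat.isCoprime_iff_coprime.2 h1
  · intro p hp1
    exact Nat.modEq_iff_dvd.1 (hp p hp1)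

open Classical in
/-- **The covering.**  A class `b` modulo a divisor `Q ≤ X ^ ε` of the big modulus, prescribed modulo
`d`, such that every `b + z`, `0 < |z| ≤ c R(X)`, has a common prime factor with `Q`. -/
theorem cover (ε : ℝ) (hε : 0 < ε) (hε1 : ε ≤ 1) (d : ℕ) (hd : Squarefree d) : ∃ c : ℝ, 0 < c ∧
    ∀ᶠ X : ℝ in atTop, ∀ (ps : ℕ) (S : Finset ℕ), GoodP d ps → GoodS X S →
    ∀ a : ℕ, a.Coprime d → ∃ Q b : ℕ, Q ∣ WW X S ps ∧ (Q : ℝ) ≤ X ^ ε ∧ b.Coprime Q ∧
      d ∣ Q ∧ b ≡ a [MOD d] ∧ ∀ z : ℤ, z ≠ 0 → |(z : ℝ)| ≤ c * rk X →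
        ∃ p : ℕ, p.Prime ∧ p ∣ Q ∧ (p : ℤ) ∣ b + z := by
  obtain ⟨C, hC, y₀, hrs⟩ := rsurvK 1 ((d : ℝ) + 2) 8 (by norm_num)
  obtain ⟨y₁, hpb⟩ := primes_between
  obtain ⟨y₃, hv⟩ := eventually_atTop.1 vfacts
  obtain ⟨ε₁, hε₁⟩ : ∃ ε₁ : ℝ, ε₁ = ε / 4000 := ⟨_, rfl⟩
  have he0 : 0 < ε₁ := by rw [hε₁]; positivity
  have he1 : ε₁ ≤ 1 / 4000 := by rw [hε₁]; linarith only [hε1]
  obtain ⟨c₂, hc₂⟩ : ∃ c₂ : ℝ, c₂ = min (ε₁ / 8) (ε₁ / (128 * C)) := ⟨_, rfl⟩
  have hc₂0 : 0 < c₂ := by rw [hc₂]; exact lt_min (by positivity) (by positivity)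
  have hc₂1 : c₂ ≤ ε₁ / 8 := by rw [hc₂]; exact min_le_left _ _
  have hc₂2 : 8 * C * c₂ ≤ ε₁ / 16 := by
    have : c₂ ≤ ε₁ / (128 * C) := by rw [hc₂]; exact min_le_right _ _
    rw [le_div_iff₀ (by positivity)] at this
    linarith only [this]
  refine ⟨c₂ / 4, by positivity, ?_⟩
  filter_upwards [par ε₁ c₂ C he0 he1 hc₂0 hC hc₂1 hc₂2 (y₀ + y₁ + ⌈|y₃|⌉₊ + d), eventually_gt_atTop 1] with X hev hX1
  intro ps S hps hS a ha
  obtain ⟨y, H, hy100, hyM, h2yy, hyT, hyH3, hHy, hHy3, hHlt, hA6, hA61, hMl, hv1, hz2, hmain⟩ := hev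
  obtain ⟨A, hA⟩ : ∃ A : ℝ, A = Real.log (Real.log X) := ⟨_, rfl⟩
  rw [← hA] at hA6 hA61 hmain
  have hyy0 : y₀ ≤ y := by omega
  have hyy1 : y₁ ≤ y := by omega
  have hyd : d ≤ y := by omega
  have hyy3 : y₃ ≤ y := by
    have h1 := Nat.le_ceil |y₃|
    have h2 : ((⌈|y₃|⌉₊ : ℕ) : ℝ) ≤ y := by exact_mod_cast (by omega : ⌈|y₃|⌉₊ ≤ y)
    exact ((le_abs_self y₃).trans h1).trans h2
  obtain ⟨hv1', hv2, hv3⟩ := hv y hyy3
  have hy0 : (0 : ℝ) < y := by exact_mod_cast (by omega : 0 < y)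
  have hly0 : 0 < Real.log y := by linarith only [hv1]
  have hdl : (d : ℝ) ≤ Real.log y := by
    have h1 : (d : ℝ) ≤ ((y₀ + y₁ + ⌈|y₃|⌉₊ + d : ℕ) : ℝ) := by exact_mod_cast (by omega : d ≤ y₀ + y₁ + ⌈|y₃|⌉₊ + d)
    exact h1.trans hMl
  have hyH : y ≤ H := by omega
  have hl4 : Real.log y ≤ (Real.log y) ^ 4 := by
    have h1 : Real.log y ^ 1 ≤ Real.log y ^ 4 := pow_le_pow_right₀ (by linarith only [hv1]) (by norm_num)
    rwa [pow_one] at h1
  -- the position of the prime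
  obtain ⟨t0, ht0p, ht1, ht2⟩ := Nat.exists_prime_lt_and_le_two_mul (H / 3) (by omega)
  have hyt0 : y < t0 := by omega
  -- the primes which are not used
  obtain ⟨F, hF⟩ : ∃ F : Finset ℕ, F = (S ∪ d.primeFactors) ∪ (if ps.Prime then {ps} else ∅) := ⟨_, rfl⟩
  have hFmem : ∀ p, p ∈ F ↔ p ∈ S ∨ p ∈ d.primeFactors ∨ (p = ps ∧ ps.Prime) := by
    intro p
    rw [hF, mem_union, mem_union]
    by_cases hpp : ps.Prime
    · simp [hpp, or_assoc]
    · simp [hpp]
  have hFpr : ∀ q ∈ F, q.Prime := by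
    intro q hq
    rw [hFmem] at hq
    rcases hq with h | h | h
    · exact (hS.1 q h).1
    · exact Nat.prime_of_mem_primeFactors h
    · rw [h.1]; exact h.2
  have hinv0 : ∀ i : ℕ, (0 : ℝ) ≤ 1 / (i : ℝ) := fun i => by positivity
  have hS6 : ∑ q ∈ S, (1 : ℝ) / q ≤ 6 / A ^ 2 := by
    have := hS.2
    rwa [← hA] at this
  have hS1 : 6 / A ^ 2 ≤ 1 := hA61
  have hFsum : ∑ q ∈ F, (1 : ℝ) / q ≤ (d : ℝ) + 2 := by
    rw [hF]
    have h1 := sum_union_le'' (s := S ∪ d.primeFactors) (t := if ps.Prime then {ps} else ∅)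
      (fun q : ℕ => (1 : ℝ) / q) hinv0
    have h2 := sum_union_le'' (s := S) (t := d.primeFactors) (fun q : ℕ => (1 : ℝ) / q) hinv0
    have h3 : ∑ q ∈ d.primeFactors, (1 : ℝ) / q ≤ d := by
      calc ∑ q ∈ d.primeFactors, (1 : ℝ) / q ≤ ∑ q ∈ d.primeFactors, (1 : ℝ) := by
            apply sum_le_sum
            intro q hq
            have := (Nat.prime_of_mem_primeFactors hq).one_lt
            rw [div_le_one (by positivity)]
            exact_mod_cast this.le
        _ = (d.primeFactors.card : ℝ) := by simp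
        _ ≤ d := by
            have h4 : d.primeFactors ⊆ Icc 1 d := by
              intro q hq
              rw [mem_Icc]
              exact ⟨(Nat.prime_of_mem_primeFactors hq).pos, Nat.le_of_mem_primeFactors hq⟩
            have h5 := card_le_card h4
            rw [Nat.card_Icc] at h5
            exact_mod_cast (by omega : d.primeFactors.card ≤ d)
    have h4 : ∑ q ∈ (if ps.Prime then ({ps} : Finset ℕ) else ∅), (1 : ℝ) / q ≤ 1 := by
      by_cases hpp : ps.Prime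
      · rw [if_pos hpp, sum_singleton, div_le_one (by exact_mod_cast hpp.pos)]
        exact_mod_cast hpp.one_lt.le
      · rw [if_neg hpp, sum_empty]; norm_num
    linarith only [h1, h2, h3, h4, hS6, hS1]
  have hFtail : ∑ q ∈ F.filter (fun q : ℕ => V0 y < Real.log q), (1 : ℝ) / q ≤ 8 / Real.log y := by
    have h0 : F.filter (fun q : ℕ => V0 y < Real.log q) ⊆
        S ∪ ((if ps.Prime then ({ps} : Finset ℕ) else ∅).filter (fun q : ℕ => V0 y < Real.log q)) := by
      intro q hq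
      rw [mem_filter, hFmem] at hq
      rw [mem_union]
      obtain ⟨h1, h2⟩ := hq
      rcases h1 with h | h | h
      · exact Or.inl h
      · exfalso
        have hqd : (q : ℝ) ≤ d := by exact_mod_cast Nat.le_of_mem_primeFactors h
        have hq0 : (0 : ℝ) < q := by exact_mod_cast (Nat.prime_of_mem_primeFactors h).pos
        have h3 : Real.exp (V0 y) < q := (Real.lt_log_iff_exp_lt hq0).1 h2
        linarith only [h3, hl4, hdl, hqd, hv2]
      · refine Or.inr (mem_filter.2 ⟨?_, h2⟩)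
        rw [if_pos h.2, mem_singleton]
        exact h.1
    refine (sum_le_sum_of_subset_of_nonneg h0 (fun i _ _ => hinv0 i)).trans ?_
    refine (sum_union_le'' (fun q : ℕ => (1 : ℝ) / q) hinv0).trans ?_
    have h1 : ∑ q ∈ S, (1 : ℝ) / q ≤ 6 / Real.log y := hS6.trans hA6
    have h2 : ∑ q ∈ ((if ps.Prime then ({ps} : Finset ℕ) else ∅).filter (fun q : ℕ => V0 y < Real.log q)),
        (1 : ℝ) / q ≤ 1 / Real.log y := by
      by_cases hpp : ps.Prime
      · rw [if_pos hpp, filter_singleton]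
        by_cases hvp : V0 y < Real.log ps
        · rw [if_pos hvp, sum_singleton]
          have hq0 : (0 : ℝ) < ps := by exact_mod_cast hpp.pos
          have h3 : Real.exp (V0 y) < ps := (Real.lt_log_iff_exp_lt hq0).1 hvp
          apply one_div_le_one_div_of_le hly0
          linarith only [h3, hl4, hv2]
        · rw [if_neg hvp, sum_empty]
          positivity
      · rw [if_neg hpp, filter_empty, sum_empty]
        positivity
    have h3 : 6 / Real.log y + 1 / Real.log y ≤ 8 / Real.log y := by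
      rw [← add_div]
      apply div_le_div_of_nonneg_right (by norm_num) hly0.le
    linarith only [h1, h2, h3]
  obtain ⟨bb, hbb1, hbb2⟩ := hrs y hyy0 F hFpr hFsum hFtail H hyH hHy (fun _ _ => t0)
    (fun _ p hp hpy _ _ hdiv => by
      have := (Nat.prime_dvd_prime_iff_eq hp ht0p).1 hdiv
      omega)
  -- the survivors
  obtain ⟨U, hU⟩ : ∃ U : Finset ℕ, U = ((range (H + 1)).filter (fun k => ∀ p : ℕ, p.Prime → p ≤ y → p ∉ F →
        ¬ k ≡ bb p [MOD p])).erase t0 := ⟨_, rfl⟩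
  have hUcard : (U.card : ℝ) ≤ C * H * (Real.log (Real.log y)) ^ 2 /
        ((Real.log y) ^ 2 * Real.log (Real.log (Real.log y))) := by
    refine le_trans ?_ hbb2
    rw [hU]
    exact_mod_cast card_erase_le
  -- the primes which kill the survivors
  obtain ⟨Pr, hPr⟩ : ∃ Pr : Finset ℕ, Pr = ((Ioc y (2 * y)).filter Nat.Prime) \ (insert ps (S.filter (fun q => y < q ∧ q ≤ 2 * y))) :=
    ⟨_, rfl⟩
  have hPrmem : ∀ p ∈ Pr, p.Prime ∧ y < p ∧ p ≤ 2 * y ∧ p ∉ S ∧ p ≠ ps := by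
    intro p hp
    rw [hPr, Finset.mem_sdiff, mem_filter, mem_Ioc, mem_insert, mem_filter] at hp
    obtain ⟨⟨⟨h1, h2⟩, h3⟩, h4⟩ := hp
    push Not at h4
    refine ⟨h3, h1, h2, fun h => ?_, h4.1⟩
    have := h4.2 h h1
    omega
  have hPrcard : (U.card : ℝ) + 2 ≤ Pr.card := by
    have h1 := hpb y hyy1
    have h2 : (((S.filter (fun q => y < q ∧ q ≤ 2 * y)).card : ℕ) : ℝ) ≤ 2 * y * (6 / A ^ 2) := by
      calc (((S.filter (fun q => y < q ∧ q ≤ 2 * y)).card : ℕ) : ℝ)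
          = ∑ q ∈ S.filter (fun q => y < q ∧ q ≤ 2 * y), (1 : ℝ) := by simp
        _ ≤ ∑ q ∈ S.filter (fun q => y < q ∧ q ≤ 2 * y), 2 * y * (1 / (q : ℝ)) := by
            apply sum_le_sum
            intro q hq
            rw [mem_filter] at hq
            have hq0 : (0 : ℝ) < q := by
              have : 0 < q := by omega
              exact_mod_cast this
            rw [mul_one_div, le_div_iff₀ hq0, one_mul]
            exact_mod_cast hq.2.2
        _ ≤ ∑ q ∈ S, 2 * y * (1 / (q : ℝ)) := by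
            apply sum_le_sum_of_subset_of_nonneg (filter_subset _ _)
            intro i _ _
            positivity
        _ = 2 * y * ∑ q ∈ S, 1 / (q : ℝ) := by rw [mul_sum]
        _ ≤ 2 * y * (6 / A ^ 2) := by gcongr
    have h3 : (((Ioc y (2 * y)).filter Nat.Prime).card : ℝ) ≤ Pr.card +
        ((S.filter (fun q => y < q ∧ q ≤ 2 * y)).card + 1) := by
      have h4 := le_card_sdiff (insert ps (S.filter (fun q => y < q ∧ q ≤ 2 * y))) ((Ioc y (2 * y)).filter Nat.Prime)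
      have h5 := card_insert_le ps (S.filter (fun q => y < q ∧ q ≤ 2 * y))
      rw [← hPr] at h4
      exact_mod_cast (by omega : ((Ioc y (2 * y)).filter Nat.Prime).card ≤ Pr.card +
        ((S.filter (fun q => y < q ∧ q ≤ 2 * y)).card + 1))
    linarith only [h1, h2, h3, hUcard, hmain]
  have hPrcard' : U.card + 2 ≤ Pr.card := by exact_mod_cast hPrcard
  have hUmem : ∀ k ∈ U, k ≠ t0 ∧ k ≤ H := by
    intro k hk
    rw [hU, mem_erase, mem_filter, mem_range] at hk
    exact ⟨hk.1, by omega⟩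
  obtain ⟨f, hf1, hf2⟩ := assign 2 Pr (fun k => Pr.filter (fun p => p ∣ ((t0 : ℤ) - k).natAbs)) U
    (fun k hk => few_big y _ (by omega) (by
      have := (hUmem k hk).1
      omega) (by
      have := (hUmem k hk).2
      omega) Pr (fun p hp => ⟨(hPrmem p hp).1, (hPrmem p hp).2.1⟩)) hPrcard'
  -- the residues
  obtain ⟨r, hr⟩ : ∃ r : ℕ → ℕ, r = fun p => if p ∣ d then a else if p ≤ y then t0 + (p - bb p) else
    if h : ∃ k ∈ U, f k = p then t0 + (p - 1) * h.choose else 1 := ⟨_, rfl⟩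
  obtain ⟨P, hP⟩ : ∃ P : Finset ℕ, P = (PW X S ps).filter (fun p => p ≤ 2 * y) := ⟨_, rfl⟩
  have hPmem : ∀ p, p ∈ P ↔ p.Prime ∧ p ≤ 2 * y ∧ p ∉ S ∧ p ≠ ps := by
    intro p
    rw [hP, mem_filter]
    unfold PW
    rw [mem_filter, mem_Icc]
    constructor
    · rintro ⟨⟨⟨h1, h2⟩, h3, h4, h5⟩, h6⟩
      exact ⟨h3, h6, h4, h5⟩
    · rintro ⟨h3, h6, h4, h5⟩
      exact ⟨⟨⟨h3.pos, by omega⟩, h3, h4, h5⟩, h6⟩
  obtain ⟨b, hb⟩ := crt P (fun p hp => ((hPmem p).1 hp).1) r
  have hPd : ∀ p ∈ d.primeFactors, p ∈ P := by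
    intro p hp
    have hpd := Nat.le_of_mem_primeFactors hp
    rw [hPmem]
    refine ⟨Nat.prime_of_mem_primeFactors hp, by omega, fun hpS => ?_, fun hps' => ?_⟩
    · have h1 := (hS.1 p hpS).2.1
      omega
    · rcases hps with h | h
      · have := (Nat.prime_of_mem_primeFactors hp).one_lt
        omega
      · omega
  -- evaluation of the residues
  have hr1 : ∀ p ∈ P, p ∣ d → b ≡ a [MOD p] := by
    intro p hp hpd
    have := hb p hp
    rw [hr] at this
    simp only [if_pos hpd] at this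
    exact this
  have hr2 : ∀ p ∈ P, ¬ p ∣ d → p ≤ y → b ≡ t0 + (p - bb p) [MOD p] := by
    intro p hp hpd hpy
    have := hb p hp
    rw [hr] at this
    simp only [if_neg hpd, if_pos hpy] at this
    exact this
  have hr3 : ∀ k ∈ U, b ≡ t0 + (f k - 1) * k [MOD f k] := by
    intro k hk
    obtain ⟨g1, g2, g3, g4, g5⟩ := hPrmem _ (hf1 k hk).1
    have hfP : f k ∈ P := (hPmem _).2 ⟨g1, g3, g4, g5⟩
    have hfd : ¬ f k ∣ d := fun h => by
      have := Nat.le_of_dvd (Nat.pos_of_ne_zero hd.ne_zero) h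
      omega
    have h1 := hb _ hfP
    have hex : ∃ k' ∈ U, f k' = f k := ⟨k, hk, rfl⟩
    rw [hr] at h1
    simp only [if_neg hfd, if_neg (by omega : ¬ f k ≤ y), dif_pos hex] at h1
    have h2 : hex.choose = k := hf2 hex.choose_spec.1 hk hex.choose_spec.2
    rw [h2] at h1
    exact h1
  have hcop : ∀ p ∈ P, ¬ p ∣ b := by
    intro p hp hpb'
    obtain ⟨g1, g2, g3, g4⟩ := (hPmem p).1 hp
    by_cases hpd : p ∣ d
    · have h1 := (hr1 p hp hpd).dvd_iff (dvd_refl p)
      have h2 : p ∣ a := h1.1 hpb'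
      have h3 := Nat.dvd_gcd h2 hpd
      rw [ha] at h3
      exact g1.one_lt.ne' (Nat.dvd_one.1 h3)
    · by_cases hpy : p ≤ y
      · have h1 := (hr2 p hp hpd hpy).dvd_iff (dvd_refl p)
        have h2 := h1.1 hpb'
        have hpF : p ∉ F := by
          rw [hFmem]
          rintro (h | h | h)
          · exact g3 h
          · exact hpd (Nat.dvd_of_mem_primeFactors h)
          · exact g4 h.1
        obtain ⟨h3, h4⟩ := hbb1 p g1 hpy hpF
        apply h4 0
        have h5 : (p : ℤ) ∣ (t0 : ℤ) - bb p := by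
          have h6 : (p : ℤ) ∣ ((t0 + (p - bb p) : ℕ) : ℤ) := by exact_mod_cast h2
          rw [Nat.cast_add, Nat.cast_sub h3.le] at h6
          have h7 := dvd_sub h6 (dvd_refl (p : ℤ))
          rwa [show (t0 : ℤ) + (p - bb p) - p = t0 - bb p by ring] at h7
        exact ((Nat.modEq_iff_dvd).2 h5).symm
      · by_cases hex : ∃ k ∈ U, f k = p
        · obtain ⟨k, hk, hkp⟩ := hex
          have h1 := (hr3 k hk).dvd_iff (dvd_refl _)
          rw [hkp] at h1
          have h2 := h1.1 hpb'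
          have h3 := (hf1 k hk).2
          apply h3
          rw [mem_filter, hkp]
          refine ⟨by rw [← hkp]; exact (hf1 k hk).1, ?_⟩
          have h6 : (p : ℤ) ∣ ((t0 + (p - 1) * k : ℕ) : ℤ) := by exact_mod_cast h2
          rw [Nat.cast_add, Nat.cast_mul, Nat.cast_sub g1.one_lt.le] at h6
          have h7 := dvd_sub h6 (Dvd.intro (k : ℤ) rfl : (p : ℤ) ∣ (p : ℤ) * k)
          rw [show (t0 : ℤ) + (p - (1 : ℕ)) * k - p * k = t0 - k by push_cast; ring] at h7
          exact Int.natCast_dvd.1 h7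
        · have h1 := hb p hp
          rw [hr] at h1
          simp only [if_neg hpd, if_neg hpy, dif_neg hex] at h1
          have h2 := h1.dvd_iff (dvd_refl p)
          exact g1.one_lt.ne' (Nat.dvd_one.1 (h2.1 hpb'))
  refine ⟨∏ p ∈ P, p, b, ?_, ?_, ?_, ?_, ?_, ?_⟩
  · unfold WW
    rw [hP]
    exact prod_dvd_prod_of_subset _ _ _ (filter_subset _ _)
  · have h1 : ∏ p ∈ P, p ≤ primorial (2 * y) := by
      unfold primorial
      apply prod_le_prod_of_subset_of_one_le'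
      · intro p hp
        obtain ⟨g1, g2, g3, g4⟩ := (hPmem p).1 hp
        rw [mem_filter, mem_range]
        exact ⟨by omega, g1⟩
      · intro p hp _
        rw [mem_filter] at hp
        exact hp.2.one_lt.le
    have h2 : ∏ p ∈ P, p ≤ 4 ^ (2 * y) := h1.trans (primorial_le_four_pow _)
    have h3 : ((∏ p ∈ P, p : ℕ) : ℝ) ≤ (4 : ℝ) ^ (2 * y) := by exact_mod_cast h2
    refine h3.trans ?_
    rw [← Real.exp_log (show (0 : ℝ) < 4 by norm_num), ← Real.exp_nat_mul,
      Real.rpow_def_of_pos (by linarith only [hX1])]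
    apply Real.exp_le_exp.2
    have h4 : Real.log 4 ≤ 2 := by
      rw [show (4 : ℝ) = 2 ^ 2 by norm_num, Real.log_pow]
      push_cast
      linarith only [Real.log_two_lt_d9]
    have hT0 : 0 < Real.log X := Real.log_pos hX1
    push_cast
    have h5 : 2 * (y : ℝ) * Real.log 4 ≤ 2 * (ε₁ * Real.log X) * 2 :=
      mul_le_mul (by linarith only [hyT]) h4 (Real.log_nonneg (by norm_num)) (by positivity)
    have h6 : 2 * (ε₁ * Real.log X) * 2 ≤ Real.log X * ε := by
      rw [hε₁]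
      have : 0 < Real.log X * ε := by positivity
      linarith only [this]
    exact h5.trans h6
  · rw [Nat.coprime_prod_right_iff]
    intro p hp
    exact (Nat.Prime.coprime_iff_not_dvd ((hPmem p).1 hp).1).2 (hcop p hp) |>.symm
  · rw [← Nat.prod_primeFactors_of_squarefree hd]
    exact prod_dvd_prod_of_subset _ _ _ hPd
  · apply modEq_of_primes' hd
    intro p hp
    exact hr1 p (hPd p hp) (Nat.dvd_of_mem_primeFactors hp)
  · intro z hz0 hz
    have hz4 : 4 * |z| ≤ H + 1 := by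
      have h1 : (4 : ℝ) * |(z : ℝ)| ≤ H + 1 := by linarith only [hz, hHlt]
      have h2 : ((4 * |z| : ℤ) : ℝ) ≤ ((H + 1 : ℤ) : ℝ) := by
        push_cast
        exact h1
      exact_mod_cast h2
    have hz5 := abs_le.1 (le_refl |z|)
    have h3H : (H : ℤ) < 3 * (H / 3 : ℕ) + 3 := by omega
    obtain ⟨k, hk⟩ : ∃ k : ℕ, (k : ℤ) = t0 + z := by
      refine ⟨(t0 + z).toNat, Int.toNat_of_nonneg ?_⟩
      omega
    have hkH : k ≤ H := by omega
    have hkt : k ≠ t0 := by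
      intro h
      rw [h] at hk
      omega
    by_cases hkU : k ∈ U
    · obtain ⟨g1, g2, g3, g4, g5⟩ := hPrmem _ (hf1 k hkU).1
      have hfP : f k ∈ P := (hPmem _).2 ⟨g1, g3, g4, g5⟩
      refine ⟨f k, g1, dvd_prod_of_mem _ hfP, ?_⟩
      have h1 := (Nat.modEq_iff_dvd.1 (hr3 k hkU).symm)
      rw [Nat.cast_add, Nat.cast_mul, Nat.cast_sub g1.one_lt.le] at h1
      have h2 := dvd_add h1 (Dvd.intro (k : ℤ) rfl : (f k : ℤ) ∣ (f k : ℤ) * k)
      rw [show (b : ℤ) - ((t0 : ℤ) + ((f k : ℤ) - (1 : ℕ)) * k) + (f k : ℤ) * k = b + (k - t0) by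
        push_cast; ring] at h2
      rwa [hk, show (t0 : ℤ) + z - t0 = z by ring] at h2
    · have h1 : ∃ p : ℕ, p.Prime ∧ p ≤ y ∧ p ∉ F ∧ k ≡ bb p [MOD p] := by
        by_contra hcon
        push Not at hcon
        apply hkU
        rw [hU, mem_erase, mem_filter, mem_range]
        exact ⟨hkt, by omega, fun p hp hpy hpF => hcon p hp hpy hpF⟩
      obtain ⟨p, hp, hpy, hpF, hkp⟩ := h1
      have hpF' := hpF
      rw [hFmem] at hpF'
      push Not at hpF'
      have hpd : ¬ p ∣ d := fun h => hpF'.2.1 (Nat.mem_primeFactors.2 ⟨hp, h, hd.ne_zero⟩)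
      have hpP : p ∈ P := (hPmem p).2 ⟨hp, by omega, hpF'.1, fun h => hpF'.2.2 h (h ▸ hp)⟩
      refine ⟨p, hp, dvd_prod_of_mem _ hpP, ?_⟩
      have h1 := (Nat.modEq_iff_dvd.1 (hr2 p hpP hpd hpy).symm)
      have h3 := (hbb1 p hp hpy hpF).1
      rw [Nat.cast_add, Nat.cast_sub h3.le] at h1
      have h4 := Nat.modEq_iff_dvd.1 hkp.symm
      have h5 := dvd_add (dvd_add h1 h4) (dvd_refl (p : ℤ))
      rw [show (b : ℤ) - ((t0 : ℤ) + ((p : ℤ) - bb p)) + ((k : ℤ) - bb p) + p = b + (k - t0) by ring,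
        hk, show (t0 : ℤ) + z - t0 = z by ring] at h5
      exact h5

end Pool.Agent.V5helper49.IS
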