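import Pool.Agent.TH101.RG.Sh
import Pool.Agent.Cov.PNT
import Pool.Agent.H378R2.Defs

set_option autoImplicit false

/-!
# Isolated primes at the Rankin scale: preparations

Elementary facts, mostly after `Pool.Agent.R463.EI` (helper463) and `Pool.Agent.TH101.RG` (helper101).
-/

namespace Pool.Agent.V5helper49.IS

open Finset Filter

/-- Rankin's function `log X log₂ X log₄ X / (log₃ X)²` -/
noncomputable def rk (X : ℝ) : ℝ :=
  Real.log X * Real.log (Real.log X) * Real.log (Real.log (Real.log (Real.log X))) /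
    Real.log (Real.log (Real.log X)) ^ 2

lemma pc_eq (n : ℕ) : Nat.primeCounting n = ((Icc 1 n).filter Nat.Prime).card := by
  rw [Nat.primeCounting, Nat.primeCounting', Nat.count_eq_card_filter_range]
  congr 1
  ext p
  rw [mem_filter, mem_filter, mem_range, mem_Icc]
  constructor
  · rintro ⟨h1, h2⟩
    exact ⟨⟨h2.pos, by omega⟩, h2⟩
  · rintro ⟨h1, h2⟩
    exact ⟨by omega, h2⟩

/-- the primes between `y` and `2 y` -/
lemma primes_between : ∃ y0 : ℕ, ∀ y : ℕ, y0 ≤ y →
    (y : ℝ) / (2 * Real.log y) ≤ (((Ioc y (2 * y)).filter Nat.Prime).card : ℝ) := by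
  have h1 := Pool.Agent.Cov.PNT.pi_tendsto
  have h2 : ∀ᶠ x : ℝ in atTop, 19 / 20 ≤ (Nat.primeCounting ⌊x⌋₊ : ℝ) * Real.log x / x :=
    h1.eventually_const_le (by norm_num)
  have h3 : ∀ᶠ x : ℝ in atTop, (Nat.primeCounting ⌊x⌋₊ : ℝ) * Real.log x / x ≤ 21 / 20 :=
    h1.eventually_le_const (by norm_num)
  obtain ⟨x0, hx0⟩ := eventually_atTop.1 (h2.and h3)
  have hlogy : Tendsto (fun y : ℕ => Real.log (y : ℝ)) atTop atTop :=
    Real.tendsto_log_atTop.comp tendsto_natCast_atTop_atTop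
  obtain ⟨y1, hy1⟩ := eventually_atTop.1 ((hlogy.eventually_ge_atTop 20).and
    (tendsto_natCast_atTop_atTop.eventually_ge_atTop (max x0 1)))
  refine ⟨y1, fun y hy => ?_⟩
  obtain ⟨g1, g2⟩ := hy1 y hy
  have gx : x0 ≤ y := (le_max_left _ _).trans g2
  have gy : (1 : ℝ) ≤ y := (le_max_right _ _).trans g2
  have a1 := (hx0 y gx).2
  have a2 := (hx0 (2 * y) (by linarith)).1
  rw [Nat.floor_natCast] at a1
  rw [show (2 * (y : ℝ)) = ((2 * y : ℕ) : ℝ) by push_cast; ring, Nat.floor_natCast] at a2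
  have hL : (0 : ℝ) < Real.log y := by linarith
  have hlog2 : Real.log ((2 * y : ℕ) : ℝ) ≤ 21 / 20 * Real.log y := by
    push_cast
    rw [Real.log_mul (by norm_num) (by linarith)]
    have := Real.log_two_lt_d9
    linarith
  have hL2 : 0 < Real.log ((2 * y : ℕ) : ℝ) := by
    apply Real.log_pos
    push_cast
    linarith
  have e1 : Nat.primeCounting (2 * y) = Nat.primeCounting y + ((Ioc y (2 * y)).filter Nat.Prime).card := by
    rw [pc_eq, pc_eq, ← card_union_of_disjoint]
    · congr 1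
      ext p
      simp only [mem_filter, mem_Icc, mem_union, mem_Ioc]
      constructor
      · rintro ⟨⟨b1, b2⟩, b3⟩
        rcases Nat.lt_or_ge y p with b4 | b4
        · exact Or.inr ⟨⟨b4, b2⟩, b3⟩
        · exact Or.inl ⟨⟨b1, b4⟩, b3⟩
      · rintro (⟨⟨b1, b2⟩, b3⟩ | ⟨⟨b1, b2⟩, b3⟩)
        · exact ⟨⟨b1, by omega⟩, b3⟩
        · exact ⟨⟨by omega, b2⟩, b3⟩
    · rw [Finset.disjoint_left]
      intro p hp hp'
      simp only [mem_filter, mem_Icc, mem_Ioc] at hp hp'
      omega
  obtain ⟨A, hA⟩ : ∃ A : ℝ, A = (Nat.primeCounting y : ℝ) := ⟨_, rfl⟩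
  obtain ⟨B, hB⟩ : ∃ B : ℝ, B = (((Ioc y (2 * y)).filter Nat.Prime).card : ℝ) := ⟨_, rfl⟩
  have e2 : (Nat.primeCounting (2 * y) : ℝ) = A + B := by
    rw [e1, hA, hB]
    push_cast
    ring
  rw [e2] at a2
  rw [← hA] at a1
  rw [← hB]
  have hA0 : 0 ≤ A := by rw [hA]; exact Nat.cast_nonneg _
  have hB0 : 0 ≤ B := by rw [hB]; exact Nat.cast_nonneg _
  rw [div_le_iff₀ (by linarith)] at a1
  rw [le_div_iff₀ (by push_cast; linarith)] at a2
  rw [div_le_iff₀ (by linarith)]
  have a3 : (A + B) * Real.log ((2 * y : ℕ) : ℝ) ≤ (A + B) * (21 / 20 * Real.log y) :=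
    mul_le_mul_of_nonneg_left hlog2 (by linarith)
  push_cast at a2
  have a4 : 19 / 20 * (2 * (y : ℝ)) ≤ (A + B) * (21 / 20 * Real.log y) := a2.trans (by
    push_cast at a3
    exact a3)
  nlinarith

lemma assign (m : ℕ) (Pr : Finset ℕ) (bad : ℕ → Finset ℕ) (U : Finset ℕ)
    (hb : ∀ k ∈ U, (bad k).card ≤ m) (hc : U.card + m ≤ Pr.card) :
    ∃ f : ℕ → ℕ, (∀ k ∈ U, f k ∈ Pr ∧ f k ∉ bad k) ∧ Set.InjOn f U := by
  classical
  induction U using Finset.induction_on with
  | empty => exact ⟨fun _ => 0, by simp, by simp⟩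
  | insert k U hk ih =>
    rw [card_insert_of_notMem hk] at hc
    obtain ⟨f, hf1, hf2⟩ := ih (fun j hj => hb j (mem_insert_of_mem hj)) (by omega)
    have h1 : (U.image f ∪ bad k).card ≤ U.card + m :=
      (card_union_le _ _).trans (Nat.add_le_add card_image_le (hb k (mem_insert_self _ _)))
    have h2 : (Pr \ (U.image f ∪ bad k)).Nonempty := by
      rw [← card_pos]
      have := le_card_sdiff (U.image f ∪ bad k) Pr
      by_contra hcon
      have h3 : U.card + m < Pr.card + 1 := by omega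
      have h4 : Pr.card ≤ (U.image f ∪ bad k).card + (Pr \ (U.image f ∪ bad k)).card := by
        omega
      omega
    obtain ⟨q, hq⟩ := h2
    rw [Finset.mem_sdiff, mem_union] at hq
    push Not at hq
    refine ⟨Function.update f k q, ?_, ?_⟩
    · intro j hj
      rcases eq_or_ne j k with rfl | hne
      · rw [Function.update_self]
        exact ⟨hq.1, hq.2.2⟩
      · rw [Function.update_of_ne hne]
        exact hf1 j ((mem_insert.1 hj).resolve_left hne)
    · intro i hi j hj hij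
      rw [Finset.mem_coe, mem_insert] at hi hj
      rcases eq_or_ne i k with rfl | hi' <;> rcases eq_or_ne j i with rfl | hj'
      · rfl
      · exfalso
        rw [Function.update_self, Function.update_of_ne hj'] at hij
        exact hq.2.1 (mem_image.2 ⟨j, hj.resolve_left hj', hij.symm⟩)
      · rfl
      · rcases eq_or_ne j k with rfl | hjk
        · exfalso
          rw [Function.update_self, Function.update_of_ne hi'] at hij
          exact hq.2.1 (mem_image.2 ⟨i, hi.resolve_left hi', hij⟩)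
        · rw [Function.update_of_ne hi', Function.update_of_ne hjk] at hij
          exact hf2 (hi.resolve_left hi') (hj.resolve_left hjk) hij

/-- few primes `> y` divide a number below `y ^ 3` -/
lemma few_big (y n : ℕ) (hy : 1 ≤ y) (hn0 : n ≠ 0) (hn : n < y ^ 3) (Pr : Finset ℕ)
    (hPr : ∀ p ∈ Pr, p.Prime ∧ y < p) : (Pr.filter (fun p => p ∣ n)).card ≤ 2 := by
  by_contra hcon
  push Not at hcon
  obtain ⟨T, hT, hTc⟩ := exists_subset_card_eq (show 3 ≤ (Pr.filter (fun p => p ∣ n)).card by omega)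
  have h1 : ∏ p ∈ T, p ∣ n := by
    apply Finset.prod_primes_dvd n
    · intro p hp
      exact (hPr p (mem_filter.1 (hT hp)).1).1.prime
    · intro p hp
      exact (mem_filter.1 (hT hp)).2
  have h2 : y ^ 3 ≤ ∏ p ∈ T, p := by
    rw [← hTc]
    exact Finset.pow_card_le_prod _ _ _ (fun p hp => (hPr p (mem_filter.1 (hT hp)).1).2.le)
  have h3 := Nat.le_of_dvd (Nat.pos_of_ne_zero hn0) h1
  omega

/-- simultaneous congruences -/
lemma crt (P : Finset ℕ) (hP : ∀ p ∈ P, p.Prime) (r : ℕ → ℕ) : ∃ b : ℕ, ∀ p ∈ P, b ≡ r p [MOD p] := by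
  obtain ⟨b, hb⟩ := Nat.chineseRemainderOfFinset r (fun p => p) P
    (fun p hp => (hP p hp).ne_zero)
    (fun p hp q hq hpq => (Nat.coprime_primes (hP p hp) (hP q hq)).2 hpq)
  exact ⟨b, hb⟩

end Pool.Agent.V5helper49.IS
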