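import Pool.Agent.V5helper49.IS.Nums

set_option autoImplicit false

/-!
# Isolated primes at the Rankin scale: the parameters of the covering
-/

namespace Pool.Agent.V5helper49.IS

open Finset Filter Pool.Agent.H378R2 Pool.Agent.TH101.RG

theorem evX (c M N : ℝ) (hc : 0 < c) : ∀ᶠ X : ℝ in atTop,
    N ≤ Real.log X ∧ N ≤ Real.log (Real.log X) ∧ N ≤ Real.log (Real.log (Real.log X)) ∧
    N ≤ Real.log (Real.log (Real.log (Real.log X))) ∧
    Real.log (Real.log (Real.log (Real.log X))) ≤ Real.log (Real.log (Real.log X)) ∧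
    M * Real.log (Real.log (Real.log X)) ^ 2 ≤ c * Real.log (Real.log X) ∧
    Real.log (Real.log X) ^ 2 ≤ Real.log X := by
  have t1 := Real.tendsto_log_atTop
  have t2 : Tendsto (fun X : ℝ => Real.log (Real.log X)) atTop atTop := t1.comp t1
  have t3 : Tendsto (fun X : ℝ => Real.log (Real.log (Real.log X))) atTop atTop := t1.comp t2
  have t4 : Tendsto (fun X : ℝ => Real.log (Real.log (Real.log (Real.log X)))) atTop atTop := t1.comp t3
  have h1 : ∀ᶠ x : ℝ in atTop, ‖Real.log x ^ 2‖ ≤ (c / (|M| + 1)) * ‖x‖ :=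
    (Real.isLittleO_pow_log_id_atTop (n := 2)).def (by positivity)
  have h2 : ∀ᶠ x : ℝ in atTop, ‖Real.log x ^ 2‖ ≤ 1 * ‖x‖ :=
    (Real.isLittleO_pow_log_id_atTop (n := 2)).def one_pos
  filter_upwards [t1.eventually_ge_atTop N, t2.eventually_ge_atTop N, t3.eventually_ge_atTop N,
    t4.eventually_ge_atTop N, t2.eventually h1, t1.eventually h2, t1.eventually_ge_atTop 1,
    t2.eventually_ge_atTop 1, t3.eventually_ge_atTop 1] with X a1 a2 a3 a4 a5 a6 a7 a8 a9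
  refine ⟨a1, a2, a3, a4, ?_, ?_, ?_⟩
  · have := Real.log_le_sub_one_of_pos (show 0 < Real.log (Real.log (Real.log X)) by linarith)
    linarith
  · rw [Real.norm_of_nonneg (by positivity), Real.norm_of_nonneg (by linarith)] at a5
    rw [div_mul_eq_mul_div, le_div_iff₀ (by positivity)] at a5
    have h3 : M ≤ |M| + 1 := (le_abs_self M).trans (by linarith)
    have h4 : 0 ≤ Real.log (Real.log (Real.log X)) ^ 2 := sq_nonneg _
    nlinarith
  · rw [Real.norm_of_nonneg (by positivity), Real.norm_of_nonneg (by linarith), one_mul] at a6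
    exact a6

/-- the numerical part, in terms of `T = log X` -/
theorem numT (ε₁ c₂ C : ℝ) (he0 : 0 < ε₁) (he1 : ε₁ ≤ 1 / 4000) (hc₂0 : 0 < c₂) (hC : 0 < C)
    (hc₂1 : c₂ ≤ ε₁ / 8) (hc₂2 : 8 * C * c₂ ≤ ε₁ / 16) (M T A B D R y H l1 l2 l3 : ℝ) (hM : 100 ≤ M)
    (a1 : 2 * M / ε₁ + 200 ≤ T) (a2 : 2 * M / ε₁ + 200 ≤ A) (a3 : 200 ≤ B) (a4 : 200 ≤ D) (a5 : D ≤ B)
    (a6 : 10 * B ^ 2 ≤ c₂ * A) (a7 : A ^ 2 ≤ T) (hR : R = T * A * D / B ^ 2)
    (hyT : y ≤ ε₁ * T) (hyT1 : ε₁ * T < y + 1) (hH1 : H ≤ c₂ * R) (hH2 : c₂ * R < H + 1)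
    (hl1 : A / 2 ≤ l1) (hl1' : l1 ≤ A) (hl2 : l2 ≤ B) (hl2' : 0 ≤ l2) (hl3 : D / 2 ≤ l3) :
    M ≤ y ∧ 2 * y ≤ T / 1000 ∧ 3 * y + 3 ≤ c₂ * R ∧ H ≤ y * l1 ^ 2 ∧ 6 / A ^ 2 ≤ 6 / l1 ∧ 6 / A ^ 2 ≤ 1 ∧
    M ≤ l1 ∧
    C * H * l2 ^ 2 / (l1 ^ 2 * l3) + 2 + (2 * y * (6 / A ^ 2) + 1) ≤ y / (2 * l1) := by
  have hMe : 2 * M ≤ ε₁ * T := by
    have h1 : 2 * M / ε₁ ≤ T := by linarith only [a1]
    rw [div_le_iff₀ he0] at h1
    linarith only [h1]
  have hMe' : 200 * (1 / ε₁) ≤ A := by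
    have h1 : 200 * (1 / ε₁) ≤ 2 * M / ε₁ := by
      rw [mul_one_div]
      exact div_le_div_of_nonneg_right (by linarith only [hM]) he0.le
    linarith only [h1, a2]
  have hMA : 2 * M ≤ A := by
    have h1 : 2 * M ≤ 2 * M / ε₁ := by
      rw [le_div_iff₀ he0]
      have : 2 * M * ε₁ ≤ 2 * M * 1 := by
        apply mul_le_mul_of_nonneg_left (by linarith only [he1]) (by linarith only [hM])
      linarith only [this]
    linarith only [h1, a2]
  have hMT : 200 ≤ T := by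
    have : 0 ≤ 2 * M / ε₁ := by positivity
    linarith only [this, a1]
  have hA200 : 200 ≤ A := by linarith only [hMA, hM]
  have hT0 : 0 < T := by linarith only [hMT]
  have hA0 : 0 < A := by linarith only [hA200]
  have hB0 : 0 < B := by linarith only [a3]
  have hD0 : 0 < D := by linarith only [a4]
  have hl10 : 0 < l1 := by linarith only [hl1, hA0]
  have hl30 : 0 < l3 := by linarith only [hl3, hD0]
  have hyM : M ≤ y := by linarith only [hMe, hyT1, hM]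
  have hy0 : 0 < y := by linarith only [hyM, hM]
  have hyT2 : ε₁ * T / 2 ≤ y := by linarith only [hMe, hyT1, hM]
  have hyleT : 4000 * y ≤ T := by
    have : ε₁ * T ≤ 1 / 4000 * T := mul_le_mul_of_nonneg_right he1 hT0.le
    linarith only [this, hyT]
  have hR0 : 0 < R := by rw [hR]; positivity
  have hT1 : 10 * T ≤ c₂ * R := by
    rw [hR, mul_div_assoc', le_div_iff₀ (by positivity)]
    have h1 : T * (10 * B ^ 2) ≤ T * (c₂ * A) := mul_le_mul_of_nonneg_left a6 hT0.le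
    have h2 : T * (c₂ * A) * 1 ≤ T * (c₂ * A) * D :=
      mul_le_mul_of_nonneg_left (by linarith only [a4]) (by positivity)
    linarith only [h1, h2]
  have hRle : R ≤ T * A ^ 2 := by
    rw [hR, div_le_iff₀ (by positivity)]
    have h3 : D * 1 ≤ B * B := mul_le_mul a5 (by linarith only [a3]) zero_le_one hB0.le
    have h4 : T * A * (D * 1) ≤ T * A * (B * B) := mul_le_mul_of_nonneg_left h3 (by positivity)
    have h5 : T * A * (B * B) * 1 ≤ T * A * (B * B) * A :=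
      mul_le_mul_of_nonneg_left (by linarith only [hA200]) (by positivity)
    linarith only [h4, h5]
  refine ⟨hyM, by linarith only [hyleT, hT0], by linarith only [hyleT, hT1, hMT, hT0, hy0], ?_, ?_, ?_, ?_, ?_⟩
  · have h1 : c₂ * R ≤ ε₁ / 8 * (T * A ^ 2) := mul_le_mul hc₂1 hRle hR0.le (by positivity)
    have h3 : (A / 2) ^ 2 ≤ l1 ^ 2 := pow_le_pow_left₀ (by positivity) hl1 2
    have h2 : ε₁ * T / 2 * (A / 2) ^ 2 ≤ y * l1 ^ 2 := mul_le_mul hyT2 h3 (by positivity) hy0.le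
    linarith only [h1, h2, hH1]
  · apply div_le_div_of_nonneg_left (by norm_num) hl10
    have : A * 1 ≤ A * A := mul_le_mul_of_nonneg_left (by linarith only [hA200]) hA0.le
    linarith only [this, hl1']
  · rw [div_le_one (by positivity)]
    have : 200 * 200 ≤ A * A := mul_le_mul hA200 hA200 (by norm_num) hA0.le
    linarith only [this]
  · linarith only [hMA, hl1]
  · have h1 : C * H * l2 ^ 2 / (l1 ^ 2 * l3) ≤ ε₁ / 16 * (T / A) := by
      have g1 : C * H * l2 ^ 2 / (l1 ^ 2 * l3) ≤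
          C * (c₂ * (T * A * D / B ^ 2)) * B ^ 2 / ((A / 2) ^ 2 * (D / 2)) := by
        rw [← hR]
        apply div_le_div₀ (by positivity) _ (by positivity) _
        · apply mul_le_mul _ (pow_le_pow_left₀ hl2' hl2 2) (by positivity) (by positivity)
          exact mul_le_mul_of_nonneg_left hH1 hC.le
        · exact mul_le_mul (pow_le_pow_left₀ (by positivity) hl1 2) hl3 (by positivity) (by positivity)
      have g2 : C * (c₂ * (T * A * D / B ^ 2)) * B ^ 2 / ((A / 2) ^ 2 * (D / 2)) = 8 * C * c₂ * (T / A) := by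
        field_simp
        ring
      have g3 : 8 * C * c₂ * (T / A) ≤ ε₁ / 16 * (T / A) := mul_le_mul_of_nonneg_right hc₂2 (by positivity)
      linarith only [g1, g2, g3]
    have h4 : ε₁ / 4 * (T / A) ≤ y / (2 * l1) := by
      have g1 : ε₁ / 4 * (T / A) = (ε₁ * T / 2) / (2 * A) := by field_simp; ring
      rw [g1]
      exact div_le_div₀ hy0.le hyT2 (by positivity) (by linarith only [hl1'])
    have h5 : 2 * y * (6 / A ^ 2) ≤ ε₁ * 12 / 200 * (T / A) := by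
      have g1 : 2 * y * (6 / A ^ 2) ≤ 2 * (ε₁ * T) * (6 / A ^ 2) :=
        mul_le_mul_of_nonneg_right (by linarith only [hyT]) (by positivity)
      have g2 : 2 * (ε₁ * T) * (6 / A ^ 2) = ε₁ * 12 * (T / A) * (1 / A) := by field_simp; ring
      have g3 : ε₁ * 12 * (T / A) * (1 / A) ≤ ε₁ * 12 * (T / A) * (1 / 200) :=
        mul_le_mul_of_nonneg_left (one_div_le_one_div_of_le (by norm_num) hA200) (by positivity)
      linarith only [g1, g2, g3]
    have h6 : 200 ≤ ε₁ * (T / A) := by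
      have h7 : A ≤ T / A := by
        rw [le_div_iff₀ hA0]
        linarith only [a7]
      have h8 : ε₁ * (200 * (1 / ε₁)) ≤ ε₁ * (T / A) :=
        mul_le_mul_of_nonneg_left (by linarith only [h7, hMe']) he0.le
      have h9 : ε₁ * (200 * (1 / ε₁)) = 200 := by field_simp
      linarith only [h8, h9]
    linarith only [h1, h4, h5, h6]

/-- the parameters -/
theorem par (ε₁ c₂ C : ℝ) (he0 : 0 < ε₁) (he1 : ε₁ ≤ 1 / 4000) (hc₂0 : 0 < c₂) (hC : 0 < C)
    (hc₂1 : c₂ ≤ ε₁ / 8) (hc₂2 : 8 * C * c₂ ≤ ε₁ / 16) (M : ℕ) : ∀ᶠ X : ℝ in atTop,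
    ∃ y H : ℕ, 100 ≤ y ∧ M ≤ y ∧ 2 * y ≤ yy X ∧ (y : ℝ) ≤ ε₁ * Real.log X ∧ 3 * y + 3 ≤ H ∧
      (H : ℝ) ≤ y * (Real.log y) ^ 2 ∧ H < y ^ 3 ∧ c₂ * rk X < (H : ℝ) + 1 ∧
      6 / (Real.log (Real.log X)) ^ 2 ≤ 6 / Real.log y ∧ 6 / (Real.log (Real.log X)) ^ 2 ≤ 1 ∧
      (M : ℝ) ≤ Real.log y ∧ 100 ≤ Real.log y ∧ M ≤ z2 X ∧
      C * H * (Real.log (Real.log y)) ^ 2 / ((Real.log y) ^ 2 * Real.log (Real.log (Real.log y))) + 2 +
        (2 * y * (6 / (Real.log (Real.log X)) ^ 2) + 1) ≤ (y : ℝ) / (2 * Real.log y) := by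
  filter_upwards [evX c₂ 10 (2 * ((M : ℝ) + 100) / ε₁ + 2 * |Real.log (ε₁ / 2)| + 200) hc₂0] with X hev
  obtain ⟨T, hT⟩ : ∃ T : ℝ, T = Real.log X := ⟨_, rfl⟩
  obtain ⟨A, hA⟩ : ∃ A : ℝ, A = Real.log T := ⟨_, rfl⟩
  obtain ⟨B, hB⟩ : ∃ B : ℝ, B = Real.log A := ⟨_, rfl⟩
  obtain ⟨D, hD⟩ : ∃ D : ℝ, D = Real.log B := ⟨_, rfl⟩
  rw [← hT, ← hA, ← hB, ← hD] at hev
  obtain ⟨a1, a2, a3, a4, a5, a6, a7⟩ := hev
  have hrk : rk X = T * A * D / B ^ 2 := by
    unfold rk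
    rw [← hT, ← hA, ← hB, ← hD]
  have hM0 : (0 : ℝ) ≤ M := Nat.cast_nonneg _
  have hla : 0 ≤ |Real.log (ε₁ / 2)| := abs_nonneg _
  have hfr : 0 ≤ 2 * ((M : ℝ) + 100) / ε₁ := by positivity
  have b1 : 2 * ((M : ℝ) + 100) / ε₁ + 200 ≤ T := by linarith only [a1, hla]
  have b2 : 2 * ((M : ℝ) + 100) / ε₁ + 200 ≤ A := by linarith only [a2, hla]
  have b3 : 200 ≤ B := by linarith only [a3, hla, hfr]
  have b4 : 200 ≤ D := by linarith only [a4, hla, hfr]
  have b5 : 2 * |Real.log (ε₁ / 2)| ≤ A := by linarith only [a2, hfr]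
  have hT0 : 0 < T := by linarith only [b1, hfr]
  have hA0 : 0 < A := by linarith only [b2, hfr]
  have hB0 : 0 < B := by linarith only [b3]
  have hD0 : 0 < D := by linarith only [b4]
  obtain ⟨y, hy⟩ : ∃ y : ℕ, y = ⌊ε₁ * T⌋₊ := ⟨_, rfl⟩
  have hyT : (y : ℝ) ≤ ε₁ * T := by rw [hy]; exact Nat.floor_le (by positivity)
  have hyT1 : ε₁ * T < (y : ℝ) + 1 := by rw [hy]; exact Nat.lt_floor_add_one _
  have hMe : 2 * ((M : ℝ) + 100) ≤ ε₁ * T := by
    have h1 : 2 * ((M : ℝ) + 100) / ε₁ ≤ T := by linarith only [b1]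
    rw [div_le_iff₀ he0] at h1
    linarith only [h1]
  have hyM : (M : ℝ) + 100 ≤ y := by linarith only [hMe, hyT1, hM0]
  have hy0 : (0 : ℝ) < y := by linarith only [hyM, hM0]
  have hyleT : (y : ℝ) ≤ T := by
    have : ε₁ * T ≤ 1 / 4000 * T := mul_le_mul_of_nonneg_right he1 hT0.le
    linarith only [this, hyT, hT0]
  have hly1 : Real.log y ≤ A := by
    rw [hA]; exact Real.log_le_log hy0 hyleT
  have hly2 : A / 2 ≤ Real.log y := by
    have h1 : Real.log (ε₁ / 2 * T) ≤ Real.log y :=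
      Real.log_le_log (by positivity) (by linarith only [hyT1, hMe, hM0])
    rw [Real.log_mul (by positivity) hT0.ne', ← hA] at h1
    have := neg_abs_le (Real.log (ε₁ / 2))
    linarith only [this, h1, b5]
  have hly0 : 0 < Real.log y := by linarith only [hly2, hA0]
  have hlog2 := Real.log_two_lt_d9
  have hl2y1 : Real.log (Real.log y) ≤ B := by rw [hB]; exact Real.log_le_log hly0 hly1
  have hl2y2 : B / 2 ≤ Real.log (Real.log y) := by
    have h1 : Real.log (A / 2) ≤ Real.log (Real.log y) := Real.log_le_log (by positivity) hly2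
    rw [Real.log_div hA0.ne' (by norm_num), ← hB] at h1
    linarith only [h1, b3, hlog2]
  have hl2y0 : 0 < Real.log (Real.log y) := by linarith only [hl2y2, hB0]
  have hl3y2 : D / 2 ≤ Real.log (Real.log (Real.log y)) := by
    have h1 : Real.log (B / 2) ≤ Real.log (Real.log (Real.log y)) := Real.log_le_log (by positivity) hl2y2
    rw [Real.log_div hB0.ne' (by norm_num), ← hD] at h1
    linarith only [h1, b4, hlog2]
  obtain ⟨H, hH⟩ : ∃ H : ℕ, H = ⌊c₂ * rk X⌋₊ := ⟨_, rfl⟩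
  have hrk0 : 0 ≤ rk X := by rw [hrk]; positivity
  have hHle : (H : ℝ) ≤ c₂ * rk X := by rw [hH]; exact Nat.floor_le (by positivity)
  have hHlt : c₂ * rk X < (H : ℝ) + 1 := by rw [hH]; exact Nat.lt_floor_add_one _
  obtain ⟨g1, g2, g3, g4, g5, g6, g7, g8⟩ := numT ε₁ c₂ C he0 he1 hc₂0 hC hc₂1 hc₂2 ((M : ℝ) + 100) T A B D
    (rk X) y H (Real.log y) (Real.log (Real.log y)) (Real.log (Real.log (Real.log y)))
    (by linarith only [hM0]) b1 b2 b3 b4 a5 a6 a7 hrk hyT hyT1 hHle hHlt hly2 hly1 hl2y1 hl2y0.le hl3y2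
  have hM100 : M + 100 ≤ y := by exact_mod_cast g1
  refine ⟨y, H, by omega, by omega, ?_, by rwa [← hT], ?_, g4, ?_, hHlt, by rwa [← hT, ← hA],
    by rwa [← hT, ← hA], by linarith only [g7], by linarith only [g7, hM0], ?_, by rwa [← hT, ← hA]⟩
  · unfold yy
    apply Nat.le_floor
    push_cast
    rwa [← hT]
  · rw [hH]
    apply Nat.le_floor
    push_cast
    exact g3
  · have h1 : Real.log y < y := by
      have := Real.log_le_sub_one_of_pos hy0
      linarith only [this]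
    have h2 : (Real.log y) ^ 2 < (y : ℝ) ^ 2 := pow_lt_pow_left₀ h1 hly0.le (by norm_num)
    have h3 : (H : ℝ) < (y : ℝ) ^ 3 := by
      calc (H : ℝ) ≤ y * (Real.log y) ^ 2 := g4
        _ < y * (y : ℝ) ^ 2 := mul_lt_mul_of_pos_left h2 hy0
        _ = (y : ℝ) ^ 3 := by ring
    exact_mod_cast h3
  · unfold z2
    rw [← hT, ← hA]
    have h3 : (M : ℝ) ≤ A ^ 3 := by
      have h4 : A ^ 1 ≤ A ^ 3 := pow_le_pow_right₀ (by linarith only [b2, hfr]) (by norm_num)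
      rw [pow_one] at h4
      linarith only [h4, g7, hly1]
    exact_mod_cast h3.trans (Nat.le_ceil _)

end Pool.Agent.V5helper49.IS
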